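import Pool.Agent.Work.MP_be9894_co.Sb.Defs

set_option autoImplicit false
set_option linter.unusedSectionVars false

namespace Pool.Agent.Work.MP_be9894_co.Sb

open Finset MvPolynomial Pool.Agent.Work.MP_be9894_co.H2

section gen

variable {R S : Type} [CommRing R] [CommRing S]

lemma gg_succ (t : ℕ → R) (h : ℕ) (c : Cd (h + 1)) (i : ℕ) : gg t (h + 1) c i =
    ∑ j ∈ range i, if (ty c = true ↔ j % 2 = 0) then
      SS t (j + 1) * ((kd c).map fun z => gg t h z (j + 1)).prod -
        SS t j * ((kd c).map fun z => gg t h z j).prod else 0 := rfl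

lemma om_succ (J : ℕ) (lam u v : R) (τ : Bool) (k : ℕ) (e : ℤ) : om J lam u v τ (k + 1) e =
    if (if τ = true then 0 ≤ e else e ≤ -1) then
      lam * om J lam u v τ k e + v * om J lam u v τ k (e - 1) +
        u * ∑ j ∈ range J, om J lam u v τ k (e + j) else 0 := rfl

lemma om_zero (J : ℕ) (lam u v : R) (τ : Bool) (e : ℤ) : om J lam u v τ 0 e =
    if (if τ = true then e = 0 else e ≤ -1) then 1 else 0 := rfl

lemma om_t0 (J : ℕ) (lam u v : R) (e : ℤ) : om J lam u v true 0 e = if e = 0 then 1 else 0 := by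
  rw [om_zero]; simp

lemma om_f0 (J : ℕ) (lam u v : R) (e : ℤ) : om J lam u v false 0 e = if e ≤ -1 then 1 else 0 := by
  rw [om_zero]; simp

lemma om_t1 (J : ℕ) (lam u v : R) (k : ℕ) (e : ℤ) (he : 0 ≤ e) : om J lam u v true (k + 1) e =
      lam * om J lam u v true k e + v * om J lam u v true k (e - 1) +
        u * ∑ j ∈ range J, om J lam u v true k (e + j) := by
  rw [om_succ, if_pos (by simpa using he)]

lemma om_f1 (J : ℕ) (lam u v : R) (k : ℕ) (e : ℤ) (he : e ≤ -1) : om J lam u v false (k + 1) e =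
      lam * om J lam u v false k e + v * om J lam u v false k (e - 1) +
        u * ∑ j ∈ range J, om J lam u v false k (e + j) := by
  rw [om_succ, if_pos (by simpa using he)]

open Classical in
lemma qq_succ (J : ℕ) (t : ℕ → R) (u v : R) (N h : ℕ) (c : Cd (h + 1)) (k : ℕ) :
    qq J t u v N (h + 1) c k = if hole c then
      ((kd c).map fun z => RR J (SS t N) u v (ty c) k * gg t h z N + qq J t u v N h z (k + 1)).prod
    else RR J (SS t N) u v (ty c) k * ((kd c).map (GG J t u v N h)).prod := rfl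

lemma qq_hole (J : ℕ) (t : ℕ → R) (u v : R) (N : ℕ) {h : ℕ} {c : Cd (h + 1)} {z : Cd h}
    (h1 : kd c = {z}) (h2 : hole c) (k : ℕ) : qq J t u v N (h + 1) c k =
      RR J (SS t N) u v (ty c) k * gg t h z N + qq J t u v N h z (k + 1) := by
  rw [qq_succ, if_pos h2, h1, Multiset.map_singleton, Multiset.prod_singleton]

lemma qq_true (J : ℕ) (t : ℕ → R) (u v : R) (N : ℕ) {h : ℕ} {c : Cd (h + 1)}
    (h2 : ¬ hole c) (k : ℕ) : qq J t u v N (h + 1) c k =
      RR J (SS t N) u v (ty c) k * ((kd c).map (GG J t u v N h)).prod := by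
  rw [qq_succ, if_neg h2]

lemma WF_cases {h : ℕ} {c : Cd (h + 1)} (hc : WF (h + 1) c) :
    (∃ z, kd c = {z} ∧ hole c ∧ ty z = ty c ∧ WF h z) ∨
      (¬ hole c ∧ ∀ z ∈ kd c, ty z = !ty c ∧ WF h z) := by
  by_cases h1 : hole c
  · obtain ⟨z, hz⟩ := hc.2 h1
    obtain ⟨w, hw, hw2⟩ := id h1
    rw [hz, Multiset.mem_singleton] at hw
    exact Or.inl ⟨z, hz, h1, hw ▸ hw2, hc.1 z (hz ▸ Multiset.mem_singleton_self z)⟩
  · refine Or.inr ⟨h1, fun z hz => ⟨?_, hc.1 z hz⟩⟩
    have : ty z ≠ ty c := fun e => h1 ⟨z, hz, e⟩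
    revert this
    cases ty z <;> cases ty c <;> simp

lemma SS_map (φ : R →+* S) (t : ℕ → R) (t' : ℕ → S) (ht : ∀ j, φ (t j) = t' j) (i : ℕ) :
    φ (SS t i) = SS t' i := by
  unfold SS
  rw [map_sum]
  exact Finset.sum_congr rfl fun j _ => ht j

lemma gg_map (φ : R →+* S) (t : ℕ → R) (t' : ℕ → S) (ht : ∀ j, φ (t j) = t' j) (h : ℕ) (c : Cd h)
    (i : ℕ) : φ (gg t h c i) = gg t' h c i := by
  induction h generalizing i with
  | zero => exact map_zero φ
  | succ h ih =>
    rw [gg_succ, gg_succ, map_sum]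
    refine Finset.sum_congr rfl fun j _ => ?_
    split_ifs
    · rw [map_sub, map_mul, map_mul, SS_map φ t t' ht, SS_map φ t t' ht, map_multiset_prod,
        map_multiset_prod, Multiset.map_map, Multiset.map_map]
      congr 3
      · exact Multiset.map_congr rfl fun z _ => ih z _
      · exact Multiset.map_congr rfl fun z _ => ih z _
    · exact map_zero φ

lemma om_map (φ : R →+* S) (J : ℕ) (lam u v : R) (τ : Bool) (k : ℕ) (e : ℤ) :
    φ (om J lam u v τ k e) = om J (φ lam) (φ u) (φ v) τ k e := by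
  induction k generalizing e with
  | zero => rw [om_zero, om_zero, apply_ite φ, map_one, map_zero]
  | succ k ih =>
    rw [om_succ, om_succ, apply_ite φ, map_zero, map_add, map_add, map_mul, map_mul, map_mul,
      map_sum]
    simp only [ih]

lemma rho_map (φ : R →+* S) (J : ℕ) (lam u v : R) (τ : Bool) (k : ℕ) :
    φ (rho J lam u v τ k) = rho J (φ lam) (φ u) (φ v) τ k := by
  unfold rho
  rw [apply_ite φ, map_sum]
  simp only [om_map]

lemma RR_map (φ : R →+* S) (J : ℕ) (lam u v : R) (τ : Bool) (k : ℕ) :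
    φ (RR J lam u v τ k) = RR J (φ lam) (φ u) (φ v) τ k := by
  unfold RR
  rw [map_mul, rho_map, apply_ite φ]

lemma qq_map (φ : R →+* S) (J : ℕ) (t : ℕ → R) (t' : ℕ → S) (ht : ∀ j, φ (t j) = t' j) (u v : R)
    (N h : ℕ) (c : Cd h) (k : ℕ) : φ (qq J t u v N h c k) = qq J t' (φ u) (φ v) N h c k := by
  induction h generalizing k with
  | zero => exact map_zero φ
  | succ h ih =>
    rw [qq_succ, qq_succ]
    split_ifs
    · rw [map_multiset_prod, Multiset.map_map]
      congr 1
      refine Multiset.map_congr rfl fun z _ => ?_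
      rw [Function.comp_apply, map_add, map_mul, RR_map, SS_map φ t t' ht, gg_map φ t t' ht, ih]
    · rw [map_mul, RR_map, SS_map φ t t' ht, map_multiset_prod, Multiset.map_map]
      congr 2
      refine Multiset.map_congr rfl fun z _ => ?_
      rw [Function.comp_apply, GG, GG, map_add, gg_map φ t t' ht, ih]

lemma SS_cut (t : ℕ → R) (M i : ℕ) : SS (fun j => if j < M then t j else 0) i = SS t (min i M) := by
  unfold SS
  symm
  refine Finset.sum_subset_zero_on_sdiff (range_subset_range.2 (min_le_left _ _)) ?_ ?_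
  · intro j hj
    simp only [mem_sdiff, mem_range] at hj
    rw [if_neg (show ¬ j < M by omega)]
  · intro j hj
    have := mem_range.1 hj
    rw [if_pos (show j < M by omega)]

lemma gg_cut (t : ℕ → R) (M h : ℕ) (c : Cd h) (i : ℕ) :
    gg (fun j => if j < M then t j else 0) h c i = gg t h c (min i M) := by
  induction h generalizing i with
  | zero => rfl
  | succ h ih =>
    rw [gg_succ, gg_succ]
    simp only [ih, SS_cut]
    symm
    refine Finset.sum_subset_zero_on_sdiff (range_subset_range.2 (min_le_left _ _)) ?_ ?_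
    · intro j hj
      simp only [mem_sdiff, mem_range] at hj
      rw [min_eq_right (show M ≤ j + 1 by omega), min_eq_right (show M ≤ j by omega), sub_self,
        ite_self]
    · intro j hj
      have := mem_range.1 hj
      rw [min_eq_left (show j + 1 ≤ M by omega), min_eq_left (show j ≤ M by omega)]

lemma qq_cut (J : ℕ) (t : ℕ → R) (u v : R) (M N h : ℕ) (c : Cd h) (k : ℕ) :
    qq J (fun j => if j < M then t j else 0) u v N h c k = qq J t u v (min N M) h c k := by
  induction h generalizing k with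
  | zero => rfl
  | succ h ih =>
    rw [qq_succ, qq_succ]
    unfold GG
    simp only [ih, SS_cut, gg_cut]

lemma gg_at_zero (t : ℕ → R) (h : ℕ) (c : Cd h) : gg t h c 0 = 0 := by
  cases h with
  | zero => rfl
  | succ h => rw [gg_succ]; simp

lemma gg_skip (t : ℕ → R) (h : ℕ) (c : Cd h) (j : ℕ) (hj : ¬ (ty c = true ↔ j % 2 = 0)) :
    gg t h c (j + 1) = gg t h c j := by
  cases h with
  | zero => rfl
  | succ h => rw [gg_succ, gg_succ, Finset.sum_range_succ, if_neg hj, add_zero]

lemma om_inval (J : ℕ) (lam u v : R) (τ : Bool) (k : ℕ) (e : ℤ)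
    (he : ¬ (if τ = true then 0 ≤ e else e ≤ -1)) : om J lam u v τ k e = 0 := by
  cases k with
  | zero =>
    rw [om_zero, if_neg]
    intro h
    apply he
    split_ifs at h ⊢ <;> omega
  | succ k => rw [om_succ, if_neg he]

lemma om_tneg (J : ℕ) (lam u v : R) (k : ℕ) (e : ℤ) (he : e ≤ -1) : om J lam u v true k e = 0 :=
  om_inval _ _ _ _ _ _ _ (by simp; omega)

lemma om_fpos (J : ℕ) (lam u v : R) (k : ℕ) (e : ℤ) (he : 0 ≤ e) : om J lam u v false k e = 0 :=
  om_inval _ _ _ _ _ _ _ (by simp; omega)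

lemma om_big (J : ℕ) (lam u v : R) (k : ℕ) (e : ℤ) (he : (k : ℤ) < e) :
    om J lam u v true k e = 0 := by
  induction k generalizing e with
  | zero => rw [om_t0, if_neg (by omega)]
  | succ k ih =>
    rw [om_t1 _ _ _ _ _ _ (by omega), ih e (by omega), ih (e - 1) (by omega),
      Finset.sum_eq_zero fun (j : ℕ) _ => ih (e + j) (by omega)]
    simp

lemma sum_first (J : ℕ) (hJ : 0 < J) (f : ℕ → R) (hf : ∀ j, 0 < j → f j = 0) :
    ∑ j ∈ range J, f j = f 0 :=
  Finset.sum_eq_single 0 (fun j _ hj => hf j (Nat.pos_of_ne_zero hj))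
    (fun h => absurd (mem_range.2 hJ) h)

lemma rho_tv (J : ℕ) (hJ : 0 < J) (lam u : R) (k : ℕ) : rho J lam u 0 true k = (u + lam) ^ k := by
  have key : ∀ e : ℤ, om J lam u 0 true k e = if e = 0 then (u + lam) ^ k else 0 := by
    induction k with
    | zero => intro e; rw [om_t0, pow_zero]
    | succ k ih =>
      intro e
      by_cases h0 : 0 ≤ e
      · rw [om_t1 _ _ _ _ _ _ h0, zero_mul, add_zero,
          sum_first J hJ _ (fun j hj => by rw [ih, if_neg (by omega)]), Nat.cast_zero, add_zero, ih]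
        split_ifs
        · ring
        · ring
      · rw [om_tneg _ _ _ _ _ _ (by omega), if_neg (by omega)]
  unfold rho
  rw [if_pos rfl, sum_first J hJ _ (fun j hj => by rw [key, if_neg (by omega)]), key,
    if_pos Nat.cast_zero]

lemma rho_tu (J : ℕ) (lam v : R) (k : ℕ) (hk : k < J) : rho J lam 0 v true k = (v + lam) ^ k := by
  unfold rho
  rw [if_pos rfl]
  induction k with
  | zero =>
    rw [sum_first J hk _ (fun j hj => om_big _ _ _ _ _ _ (by omega)), om_t0,
      if_pos Nat.cast_zero, pow_zero]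
  | succ k ih =>
    have e1 : ∀ j ∈ range J, om J lam 0 v true (k + 1) j =
        lam * om J lam 0 v true k j + v * om J lam 0 v true k (j - 1) := fun j _ => by
      rw [om_t1 _ _ _ _ _ _ (by omega), zero_mul, add_zero]
    have e2 : ∑ j ∈ range J, om J lam 0 v true k ((j : ℤ) - 1) =
        ∑ j ∈ range J, om J lam 0 v true k j := by
      obtain ⟨I, hI⟩ : ∃ I, J = I + 1 := ⟨J - 1, by omega⟩
      generalize hf : om J lam 0 v true k = f
      have f1 : f (-1) = 0 := hf ▸ om_tneg _ _ _ _ _ _ le_rfl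
      have f2 : f I = 0 := hf ▸ om_big _ _ _ _ _ _ (by omega)
      rw [hI, Finset.sum_range_succ', Finset.sum_range_succ _ I, f2, Nat.cast_zero, zero_sub, f1]
      congr 1
      refine Finset.sum_congr rfl fun j _ => ?_
      rw [Nat.cast_succ, add_sub_cancel_right]
    rw [Finset.sum_congr rfl e1, Finset.sum_add_distrib, ← Finset.mul_sum, ← Finset.mul_sum, e2,
      ih (by omega)]
    ring

lemma rho_fu (J : ℕ) (lam v : R) (k : ℕ) : rho J lam 0 v false k = (v + lam) ^ k := by
  have key : ∀ e : ℤ, e ≤ -1 → om J lam 0 v false k e = (v + lam) ^ k := by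
    induction k with
    | zero => intro e he; rw [om_f0, if_pos he, pow_zero]
    | succ k ih =>
      intro e he
      rw [om_f1 _ _ _ _ _ _ he, ih e he, ih (e - 1) (by omega)]
      ring
  unfold rho
  rw [if_neg Bool.false_ne_true, key _ le_rfl]

lemma rho_fv (J : ℕ) (hJ : 0 < J) (lam u : R) (k : ℕ) : rho J lam u 0 false k = (u + lam) ^ k := by
  unfold rho
  rw [if_neg Bool.false_ne_true]
  induction k with
  | zero => rw [om_f0, if_pos le_rfl, pow_zero]
  | succ k ih =>
    rw [om_f1 _ _ _ _ _ _ le_rfl, sum_first J hJ _ (fun j hj =>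
      om_fpos _ _ _ _ _ _ (by omega)), Nat.cast_zero, add_zero, ih]
    ring

end gen

end Pool.Agent.Work.MP_be9894_co.Sb
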