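import Pool.Agent.Work.MP_be9894_co.Sb.Alg1

set_option autoImplicit false
set_option linter.unusedSectionVars false

namespace Pool.Agent.Work.MP_be9894_co.Sb

open Finset MvPolynomial
open Pool.Agent.Work.MP_be9894_co.H2 (PP kill kill_X kill_coeff kill_deg kill_fix_iff free_of_dvd
  kill_comm TT VV kap kap_T kap_V kap_kap psi_T psi_V ne_of_prod prod_ne deg_prod kill_C)

def ix (τ : Bool) : ℕ := if τ = true then 0 else 1

noncomputable def UU (τ : Bool) : PP := VV (ix τ)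

noncomputable def kU (τ : Bool) : PP →+* PP := kill (· = ix τ)

noncomputable def rr (J N : ℕ) (τ : Bool) (k : ℕ) : PP := rho J (SS TT N) (VV 0) (VV 1) τ k

noncomputable def Qp (J N h : ℕ) (c : Cd h) (k : ℕ) : PP := qq J TT (VV 0) (VV 1) N h c k

noncomputable def Gp (J N h : ℕ) (c : Cd h) : PP := GG J TT (VV 0) (VV 1) N h c

lemma Gp_def (J N h : ℕ) (c : Cd h) : Gp J N h c = gg TT h c N + Qp J N h c 0 := rfl

lemma ix_lt (τ : Bool) : ix τ < 2 := by cases τ <;> simp [ix]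

lemma UU_ne (τ : Bool) : UU τ ≠ 0 := X_ne_zero _

lemma kU_U (τ : Bool) : kU τ (UU τ) = 0 := psi_V _

lemma kU_V (τ : Bool) : kU (!τ) (UU τ) = UU τ := by
  unfold kU UU VV
  rw [kill_X, if_neg]
  cases τ <;> simp [ix]

lemma kU_T (τ : Bool) (j : ℕ) : kU τ (TT j) = TT j := psi_T _ (ix_lt τ) j

lemma kU_gg (τ : Bool) (h : ℕ) (c : Cd h) (i : ℕ) : kU τ (gg TT h c i) = gg TT h c i :=
  gg_map _ TT TT (kU_T τ) h c i

lemma kU_SS (τ : Bool) (i : ℕ) : kU τ (SS TT i) = SS TT i := SS_map _ TT TT (kU_T τ) i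

lemma kU_comm (τ σ : Bool) (p : PP) : kU τ (kU σ p) = kU σ (kU τ p) := kill_comm _ _ p

lemma kU_free {τ : Bool} {p q : PP} (h : p ∣ q) (hq : q ≠ 0) (hf : kU τ q = q) : kU τ p = p :=
  free_of_dvd _ h hq hf

lemma kap_kU (M : ℕ) (τ : Bool) (p : PP) : kap M (kU τ p) = kU τ (kap M p) := kill_comm _ _ p

lemma RR_eq (J N : ℕ) (τ : Bool) (k : ℕ) :
    RR J (SS TT N) (VV 0) (VV 1) τ k = UU τ * rr J N τ k := by
  cases τ <;> rfl

lemma kU_rr (J N : ℕ) (τ : Bool) (k : ℕ) (hk : k < J) :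
    kU τ (rr J N τ k) = (UU (!τ) + SS TT N) ^ k := by
  unfold rr
  rw [rho_map, kU_SS]
  cases τ
  · rw [show kU false (VV 0) = VV 0 from kU_V true, show kU false (VV 1) = 0 from kU_U false,
      rho_fv J (by omega)]
    rfl
  · rw [show kU true (VV 0) = 0 from kU_U true, show kU true (VV 1) = VV 1 from kU_V false,
      rho_tu J _ _ k hk]
    rfl

lemma kV_rr (J N : ℕ) (τ : Bool) (k : ℕ) (hJ : 0 < J) :
    kU (!τ) (rr J N τ k) = (UU τ + SS TT N) ^ k := by
  unfold rr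
  rw [rho_map, kU_SS]
  cases τ
  · rw [show kU (!false) (VV 0) = 0 from kU_U true, show kU (!false) (VV 1) = VV 1 from kU_V false,
      rho_fu]
    rfl
  · rw [show kU (!true) (VV 0) = VV 0 from kU_V true, show kU (!true) (VV 1) = 0 from kU_U false,
      rho_tv J hJ]
    rfl

lemma lin_not_free (τ : Bool) (N : ℕ) : kU τ (UU τ + SS TT N) ≠ UU τ + SS TT N := by
  rw [map_add, kU_U, kU_SS, Ne, add_left_inj]
  exact (UU_ne τ).symm

lemma lin_ne (τ : Bool) (N : ℕ) : UU τ + SS TT N ≠ 0 := fun h =>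
  lin_not_free τ N (by rw [h, map_zero])

lemma lin_dvd {τ : Bool} {N : ℕ} {p : PP} (h : UU τ + SS TT N ∣ p) (hf : kU τ p = p) : p = 0 := by
  by_contra h0
  exact lin_not_free τ N (kU_free h h0 hf)

lemma deg_lin_pow (τ : Bool) (N k : ℕ) : k ≤ degreeOf (ix τ) ((UU τ + SS TT N) ^ k) := by
  rw [degreeOf_pow_eq _ _ _ (lin_ne τ N)]
  refine Nat.le_mul_of_pos_right _ (Nat.pos_of_ne_zero fun h => lin_not_free τ N ?_)
  exact (kill_fix_iff _ _).2 h

lemma deg_SS (N : ℕ) : (SS TT N).totalDegree ≤ 1 :=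
  (totalDegree_finsetSum _ _).trans (Finset.sup_le fun _ _ => (totalDegree_X _).le)

lemma deg_om (J N : ℕ) (τ : Bool) (k : ℕ) (e : ℤ) :
    (om J (SS TT N) (VV 0) (VV 1) τ k e).totalDegree ≤ k := by
  induction k generalizing e with
  | zero => rw [om_zero]; split_ifs <;> simp
  | succ k ih =>
    have a : ∀ p q : PP, p.totalDegree ≤ 1 → q.totalDegree ≤ k → (p * q).totalDegree ≤ k + 1 :=
      fun p q h1 h2 => (totalDegree_mul _ _).trans (by omega)
    have b : (SS TT N * om J (SS TT N) (VV 0) (VV 1) τ k e +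
        VV 1 * om J (SS TT N) (VV 0) (VV 1) τ k (e - 1) +
        VV 0 * ∑ j ∈ range J, om J (SS TT N) (VV 0) (VV 1) τ k (e + j)).totalDegree ≤ k + 1 := by
      refine (totalDegree_add _ _).trans (max_le ((totalDegree_add _ _).trans (max_le ?_ ?_)) ?_)
      · exact a _ _ (deg_SS N) (ih _)
      · exact a _ _ (totalDegree_X _).le (ih _)
      · exact a _ _ (totalDegree_X _).le
          ((totalDegree_finsetSum _ _).trans (Finset.sup_le fun _ _ => ih _))
    rw [om_succ]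
    split_ifs <;> first | exact b | simp

lemma deg_rr_le (J N : ℕ) (τ : Bool) (k : ℕ) : (rr J N τ k).totalDegree ≤ k := by
  unfold rr rho
  split_ifs
  · exact (totalDegree_finsetSum _ _).trans (Finset.sup_le fun _ _ => deg_om _ _ _ _ _)
  · exact deg_om _ _ _ _ _

lemma rr_ne (J N : ℕ) (τ : Bool) (k : ℕ) (hk : k < J) : rr J N τ k ≠ 0 := by
  intro h
  have := kU_rr J N τ k hk
  rw [h, map_zero] at this
  exact pow_ne_zero k (lin_ne _ N) this.symm

lemma deg_rr (J N : ℕ) (τ : Bool) (k : ℕ) (hk : k < J) : (rr J N τ k).totalDegree = k := by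
  refine le_antisymm (deg_rr_le _ _ _ _) ((deg_lin_pow (!τ) N k).trans ?_)
  rw [← kU_rr J N τ k hk]
  exact (degreeOf_le_totalDegree _ _).trans (kill_deg _ _)

lemma unit_of_deg {q : PP} (h0 : q ≠ 0) (h : q.totalDegree = 0) : IsUnit q := by
  refine isUnit_iff_totalDegree_of_isReduced.2 ⟨IsUnit.mk0 _ fun h7 => h0 ?_, h⟩
  rw [totalDegree_eq_zero_iff_eq_C.1 h, h7, C_0]

lemma rr_fac (J N : ℕ) (τ : Bool) (k : ℕ) (hk : k < J) {π : PP} (h : π ∣ rr J N τ k)
    (hf : kU (!τ) (kU τ π) = kU τ π) : IsUnit π := by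
  obtain ⟨p, hp⟩ := h
  have h0 := rr_ne J N τ k hk
  have h1 := kU_rr J N τ k hk
  have h2 := deg_lin_pow (!τ) N k
  have h3 := deg_rr J N τ k hk
  have h4 : (UU (!τ) + SS TT N) ^ k ≠ 0 := pow_ne_zero k (lin_ne _ N)
  rw [hp] at h0 h1 h3
  rw [map_mul] at h1
  rw [← h1] at h2 h4
  rw [degreeOf_mul_eq (left_ne_zero_of_mul h4) (right_ne_zero_of_mul h4),
    (kill_fix_iff _ _).1 hf, zero_add] at h2
  rw [totalDegree_mul_of_isDomain (left_ne_zero_of_mul h0) (right_ne_zero_of_mul h0)] at h3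
  have h5 : degreeOf (ix !τ) (kU τ p) ≤ p.totalDegree :=
    (degreeOf_le_totalDegree _ _).trans (kill_deg _ _)
  exact unit_of_deg (left_ne_zero_of_mul h0) (by omega)

lemma kap_SS (M i : ℕ) : kap M (SS TT i) = SS TT (min i M) := by
  rw [SS_map (kap M) TT _ (kap_T M), SS_cut]

lemma kap_gg (M h : ℕ) (c : Cd h) (i : ℕ) : kap M (gg TT h c i) = gg TT h c (min i M) := by
  rw [gg_map (kap M) TT _ (kap_T M), gg_cut]

lemma kap_Qp (J M N h : ℕ) (c : Cd h) (k : ℕ) : kap M (Qp J N h c k) = Qp J (min N M) h c k := by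
  unfold Qp
  rw [qq_map (kap M) J TT _ (kap_T M), qq_cut, kap_V M 0 (by omega), kap_V M 1 (by omega)]

lemma kap_Gp (J M N h : ℕ) (c : Cd h) : kap M (Gp J N h c) = Gp J (min N M) h c := by
  rw [Gp_def, Gp_def, map_add, kap_gg, kap_Qp]

lemma Qp_hole (J N : ℕ) {h : ℕ} {c : Cd (h + 1)} {z : Cd h} (h1 : kd c = {z}) (h2 : hole c) (k : ℕ) :
    Qp J N (h + 1) c k = UU (ty c) * rr J N (ty c) k * gg TT h z N + Qp J N h z (k + 1) := by
  unfold Qp
  rw [qq_hole _ _ _ _ _ h1 h2, RR_eq]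

lemma Qp_true (J N : ℕ) {h : ℕ} {c : Cd (h + 1)} (h2 : ¬ hole c) (k : ℕ) :
    Qp J N (h + 1) c k = UU (ty c) * rr J N (ty c) k * ((kd c).map (Gp J N h)).prod := by
  unfold Qp
  rw [qq_true _ _ _ _ _ h2, RR_eq]
  rfl

lemma gg_mono {h : ℕ} {c : Cd h} {i N : ℕ} (hi : i ≤ N) (h0 : gg TT h c i ≠ 0) :
    gg TT h c N ≠ 0 := by
  intro h1
  have := kap_gg i h c N
  rw [h1, map_zero, min_eq_right hi] at this
  exact h0 this.symm

lemma fit_ex {h : ℕ} {c : Cd (h + 1)} {N : ℕ} (h0 : gg TT (h + 1) c N ≠ 0) :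
    ∃ j, j < N ∧ (ty c = true ↔ j % 2 = 0) ∧ ∀ z ∈ kd c, gg TT h z (j + 1) ≠ 0 := by
  rw [gg_succ] at h0
  obtain ⟨j, hj, h1⟩ := Finset.exists_ne_zero_of_sum_ne_zero h0
  split_ifs at h1 with h2
  · refine ⟨j, mem_range.1 hj, h2, fun z hz h3 => h1 ?_⟩
    have h4 : gg TT h z j = 0 := by
      by_contra h4
      exact gg_mono (Nat.le_succ j) h4 h3
    rw [Multiset.prod_eq_zero (h3 ▸ Multiset.mem_map_of_mem (fun z => gg TT h z (j + 1)) hz),
      Multiset.prod_eq_zero (h4 ▸ Multiset.mem_map_of_mem (fun z => gg TT h z j) hz)]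
    simp
  · exact absurd rfl h1

lemma fit_kids {h : ℕ} {c : Cd (h + 1)} {N : ℕ} (h0 : gg TT (h + 1) c N ≠ 0) {z : Cd h}
    (hz : z ∈ kd c) : gg TT h z N ≠ 0 := by
  obtain ⟨j, h1, _, h3⟩ := fit_ex h0
  exact gg_mono h1 (h3 z hz)

lemma fit_of {h : ℕ} {c : Cd (h + 1)} {j : ℕ} (hj : ty c = true ↔ j % 2 = 0)
    (h0 : ∀ z ∈ kd c, gg TT h z (j + 1) ≠ 0) : gg TT (h + 1) c (j + 1) ≠ 0 := by
  intro h1
  have h2 := kap_gg j (h + 1) c (j + 1)
  rw [h1, map_zero, min_eq_right (Nat.le_succ j)] at h2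
  rw [gg_succ, Finset.sum_range_succ, ← gg_succ, ← h2, zero_add, if_pos hj, sub_eq_zero] at h1
  have fr : ∀ p : PP, kill (· = j + 2) (kap j p) = kap j p := by
    intro p
    ext d
    simp only [kap, kill_coeff]
    split_ifs with a1 a2 a2
    · rfl
    · rfl
    · exact absurd (fun i hi => a2 i (by omega)) a1
    · rfl
  have e1 : kap j (SS TT j) = SS TT j := by rw [kap_SS, min_self]
  have e2 : kap j (SS TT j * ((kd c).map fun z => gg TT h z j).prod) =
      SS TT j * ((kd c).map fun z => gg TT h z j).prod := by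
    rw [map_mul, e1, map_multiset_prod, Multiset.map_map]
    congr 2
    exact Multiset.map_congr rfl fun z _ => by rw [Function.comp_apply, kap_gg, min_self]
  have e3 : SS TT (j + 1) = SS TT j + TT j := Finset.sum_range_succ _ _
  have e4 : kill (· = j + 2) (SS TT (j + 1)) ≠ SS TT (j + 1) := by
    rw [e3, map_add, ← e1, fr, Ne, add_right_inj, TT, kill_X, if_pos rfl]
    exact (X_ne_zero _).symm
  have e5 : SS TT (j + 1) ≠ 0 := fun h => e4 (by rw [h, map_zero])
  refine e4 (free_of_dvd _ (Dvd.intro _ rfl) (mul_ne_zero e5 (prod_ne h0)) ?_)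
  rw [h1, ← e2, fr]

def csz : (h : ℕ) → Cd h → ℕ
  | 0, _ => 0
  | h + 1, c => 1 + ((kd c).map (csz h)).sum

lemma csz_succ (h : ℕ) (c : Cd (h + 1)) : csz (h + 1) c = 1 + ((kd c).map (csz h)).sum := rfl

lemma deg_mprod {ι : Type} (s : Multiset ι) (f : ι → PP) (d : ι → ℕ)
    (h : ∀ z ∈ s, (f z).totalDegree ≤ d z) : (s.map f).prod.totalDegree ≤ (s.map d).sum := by
  refine (totalDegree_multiset_prod _).trans ?_
  rw [Multiset.map_map]
  exact Multiset.sum_map_le_sum_map _ _ h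

lemma deg_gg (h : ℕ) (c : Cd h) (i : ℕ) : (gg TT h c i).totalDegree ≤ csz h c := by
  induction h generalizing i with
  | zero => exact (totalDegree_zero (σ := ℕ) (R := ℚ)).le
  | succ h ih =>
    rw [gg_succ]
    refine (totalDegree_finsetSum _ _).trans (Finset.sup_le fun j _ => ?_)
    split_ifs
    · refine (totalDegree_sub _ _).trans (max_le ?_ ?_) <;>
        exact (totalDegree_mul _ _).trans (add_le_add (deg_SS _) (deg_mprod _ _ _ fun z _ => ih z _))
    · simp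

lemma deg_Qp_le (J N h : ℕ) (c : Cd h) (hc : WF h c) (k : ℕ) :
    (Qp J N h c k).totalDegree ≤ csz h c + k := by
  induction h generalizing k with
  | zero => exact hc.elim
  | succ h ih =>
    have a : (UU (ty c) * rr J N (ty c) k).totalDegree ≤ 1 + k :=
      (totalDegree_mul _ _).trans (add_le_add (totalDegree_X _).le (deg_rr_le _ _ _ _))
    rw [csz_succ]
    rcases WF_cases hc with ⟨z, h1, h2, _, h4⟩ | ⟨h1, h2⟩
    · rw [Qp_hole J N h1 h2, h1, Multiset.map_singleton, Multiset.sum_singleton]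
      refine (totalDegree_add _ _).trans (max_le ((totalDegree_mul _ _).trans ?_) ?_)
      · have := deg_gg h z N
        omega
      · have := ih z h4 (k + 1)
        omega
    · rw [Qp_true J N h1]
      refine (totalDegree_mul _ _).trans ?_
      have := deg_mprod (kd c) (Gp J N h) (csz h) fun z hz =>
        (totalDegree_add _ _).trans (max_le (deg_gg h z N) (ih z (h2 z hz).2 0))
      omega

lemma deg_Qp_zero (J h : ℕ) (c : Cd h) (hc : WF h c) (k : ℕ) (hk : k + h ≤ J) :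
    Qp J 0 h c k ≠ 0 ∧ (Qp J 0 h c k).totalDegree = csz h c + k := by
  induction h generalizing k with
  | zero => exact hc.elim
  | succ h ih =>
    rw [csz_succ]
    rcases WF_cases hc with ⟨z, h1, h2, _, h4⟩ | ⟨h1, h2⟩
    · rw [Qp_hole J 0 h1 h2, h1, Multiset.map_singleton, Multiset.sum_singleton, gg_at_zero,
        mul_zero, zero_add]
      have := ih z h4 (k + 1) (by omega)
      exact ⟨this.1, by omega⟩
    · have e : ∀ z ∈ kd c, Gp J 0 h z = Qp J 0 h z 0 := fun z _ => by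
        rw [Gp_def, gg_at_zero, zero_add]
      have n1 : ∀ z ∈ kd c, Qp J 0 h z 0 ≠ 0 := fun z hz => (ih z (h2 z hz).2 0 (by omega)).1
      have n2 := mul_ne_zero (UU_ne (ty c)) (rr_ne J 0 (ty c) k (by omega))
      rw [Qp_true J 0 h1, Multiset.map_congr rfl e]
      refine ⟨mul_ne_zero n2 (prod_ne n1), ?_⟩
      rw [totalDegree_mul_of_isDomain n2 (prod_ne n1),
        totalDegree_mul_of_isDomain (UU_ne _) (rr_ne J 0 (ty c) k (by omega)),
        deg_rr _ _ _ _ (by omega), deg_prod _ _ n1,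
        Multiset.map_congr rfl (fun z hz => (ih z (h2 z hz).2 0 (by omega)).2),
        show (UU (ty c)).totalDegree = 1 from totalDegree_X _]
      exact add_right_comm 1 k _

lemma deg_Gp (J N h : ℕ) (c : Cd h) (hc : WF h c) (hJ : h ≤ J) :
    Gp J N h c ≠ 0 ∧ (Gp J N h c).totalDegree = csz h c := by
  have h1 := deg_Qp_zero J h c hc 0 (by omega)
  have h2 := kap_Gp J 0 N h c
  rw [Nat.min_zero, Gp_def J 0, gg_at_zero, zero_add] at h2
  refine ⟨fun h3 => h1.1 (by rw [← h2, h3, map_zero]), le_antisymm ?_ ?_⟩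
  · exact (totalDegree_add _ _).trans (max_le (deg_gg h c N) (deg_Qp_le J N h c hc 0))
  · have h3 : (kap 0 (Gp J N h c)).totalDegree ≤ _ := kill_deg _ (Gp J N h c)
    rw [h2, h1.2] at h3
    exact h3

lemma Qp_ne (J N h : ℕ) (c : Cd h) (hc : WF h c) (k : ℕ) (hk : k + h ≤ J) : Qp J N h c k ≠ 0 := by
  intro h3
  have h2 := kap_Qp J 0 N h c k
  rw [h3, map_zero, Nat.min_zero] at h2
  exact (deg_Qp_zero J h c hc k hk).1 h2.symm

lemma kU_Qp (J N h : ℕ) (c : Cd h) (hc : WF h c) (k : ℕ) : kU (ty c) (Qp J N h c k) = 0 := by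
  induction h generalizing k with
  | zero => exact hc.elim
  | succ h ih =>
    rcases WF_cases hc with ⟨z, h1, h2, h3, h4⟩ | ⟨h1, _⟩
    · rw [Qp_hole J N h1 h2, map_add, map_mul, map_mul, kU_U, zero_mul, zero_mul, zero_add, ← h3,
        ih z h4]
    · rw [Qp_true J N h1, map_mul, map_mul, kU_U, zero_mul, zero_mul]

lemma kU_Gp (J N h : ℕ) (c : Cd h) (hc : WF h c) : kU (ty c) (Gp J N h c) = gg TT h c N := by
  rw [Gp_def, map_add, kU_Qp J N h c hc, add_zero, kU_gg]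

open Classical in
noncomputable def ph (N : ℕ) : (h : ℕ) → Cd h → PP
  | 0, _ => 0
  | h + 1, c => if hole c then
      ((kd c).map fun z => gg TT h z N + (UU (ty c) + SS TT N) * ph N h z).prod
    else ((kd c).map fun z => gg TT h z N).prod

lemma ph_hole (N : ℕ) {h : ℕ} {c : Cd (h + 1)} {z : Cd h} (h1 : kd c = {z}) (h2 : hole c) :
    ph N (h + 1) c = gg TT h z N + (UU (ty c) + SS TT N) * ph N h z := by
  rw [ph, if_pos h2, h1, Multiset.map_singleton, Multiset.prod_singleton]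

lemma ph_true (N : ℕ) {h : ℕ} {c : Cd (h + 1)} (h2 : ¬ hole c) :
    ph N (h + 1) c = ((kd c).map fun z => gg TT h z N).prod := by
  rw [ph, if_neg h2]

lemma kV_Qp (J N : ℕ) (hJ : 0 < J) (h : ℕ) (c : Cd h) (hc : WF h c) (k : ℕ) :
    kU (!ty c) (Qp J N h c k) = UU (ty c) * (UU (ty c) + SS TT N) ^ k * ph N h c := by
  induction h generalizing k with
  | zero => exact hc.elim
  | succ h ih =>
    rcases WF_cases hc with ⟨z, h1, h2, h3, h4⟩ | ⟨h1, h2⟩
    · have := ih z h4 (k + 1)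
      rw [h3] at this
      rw [Qp_hole J N h1 h2, map_add, map_mul, map_mul, kU_V, kV_rr J N _ k hJ, kU_gg, this,
        ph_hole N h1 h2]
      ring
    · rw [Qp_true J N h1, map_mul, map_mul, kU_V, kV_rr J N _ k hJ, ph_true N h1, map_multiset_prod,
        Multiset.map_map]
      congr 2
      refine Multiset.map_congr rfl fun z hz => ?_
      rw [Function.comp_apply, ← (h2 z hz).1, kU_Gp J N h z (h2 z hz).2]

lemma ph_ne (N h : ℕ) (c : Cd h) (hc : WF h c) (h0 : gg TT h c N ≠ 0) : ph N h c ≠ 0 := by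
  cases h with
  | zero => exact hc.elim
  | succ h =>
    rcases WF_cases hc with ⟨z, h1, h2, _, _⟩ | ⟨h1, _⟩
    · rw [ph_hole N h1 h2]
      intro h5
      refine fit_kids h0 (h1 ▸ Multiset.mem_singleton_self z) (lin_dvd (τ := ty c) (N := N) ?_
        (kU_gg _ _ _ _))
      exact ⟨-ph N h z, by linear_combination h5⟩
    · rw [ph_true N h1]
      exact prod_ne fun z hz => fit_kids h0 hz

end Pool.Agent.Work.MP_be9894_co.Sb
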