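import Pool.Agent.Work.MP_be9894_co.Sb.Alg2

set_option autoImplicit false
set_option linter.unusedSectionVars false

namespace Pool.Agent.Work.MP_be9894_co.Sb

open Finset MvPolynomial
open Pool.Agent.Work.MP_be9894_co.H2 (PP kill kill_X kill_coeff kill_deg kill_fix_iff free_of_dvd
  kill_comm TT VV kap kap_T kap_V kap_kap psi_T psi_V ne_of_prod prod_ne deg_prod kill_C)

def Good (τ : Bool) (π : PP) : Prop :=
  Irreducible π ∧ kU (!τ) (kU τ π) ≠ kU τ π ∧ kU (!τ) (kU τ π) ≠ 0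

lemma good_Gp (J N h : ℕ) (hJ : 0 < J) (τ : Bool) (z : Cd h) (hz : WF h z) (ht : ty z = !τ)
    (h0 : gg TT h z N ≠ 0) (hi : Irreducible (Gp J N h z)) : Good τ (Gp J N h z) := by
  have e1 : kU (!τ) (kU τ (Gp J N h z)) = gg TT h z N := by
    rw [kU_comm, ← ht, kU_Gp J N h z hz, kU_gg]
  refine ⟨hi, ?_, e1 ▸ h0⟩
  have e2 := kV_Qp J N hJ h z hz 0
  rw [ht, Bool.not_not, pow_zero, mul_one] at e2
  rw [e1, Gp_def, map_add, kU_gg, e2, Ne, left_eq_add]
  exact mul_ne_zero (UU_ne _) (ph_ne N h z hz h0)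

lemma fac (J j h : ℕ) (IH : ∀ h', h' < h → ∀ z : Cd h', WF h' z → gg TT h' z j ≠ 0 →
      Irreducible (Gp J j h' z)) (c : Cd h) (hc : WF h c) (g0 : gg TT h c j = 0)
    (g1 : gg TT h c (j + 1) ≠ 0) (k : ℕ) (hk : k + h ≤ J) :
    ∃ m, m < J ∧ ∃ s : Multiset PP, Qp J j h c k = UU (ty c) * (rr J j (ty c) m * s.prod) ∧
      ∀ π ∈ s, Good (ty c) π := by
  induction h generalizing k with
  | zero => exact hc.elim
  | succ h ih =>
    rcases WF_cases hc with ⟨z, h1, h2, h3, h4⟩ | ⟨h1, h2⟩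
    · have z1 : gg TT h z (j + 1) ≠ 0 := fit_kids g1 (h1 ▸ Multiset.mem_singleton_self z)
      have z0 : gg TT h z j = 0 := by
        by_contra h5
        cases h with
        | zero => exact h4
        | succ h =>
          obtain ⟨i, i1, i2, i3⟩ := fit_ex h5
          refine gg_mono i1 (fit_of (h3 ▸ i2) fun w hw => ?_) g0
          rw [h1, Multiset.mem_singleton] at hw
          rw [hw]
          exact fit_of i2 i3
      obtain ⟨m, m1, s, s1, s2⟩ := ih (fun h' hh => IH h' (by omega)) z h4 z0 z1 (k + 1) (by omega)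
      rw [h3] at s1 s2
      exact ⟨m, m1, s, by rw [Qp_hole J j h1 h2, z0, mul_zero, zero_add, s1], s2⟩
    · refine ⟨k, by omega, (kd c).map (Gp J j h), by rw [Qp_true J j h1, mul_assoc], fun π hπ => ?_⟩
      obtain ⟨z, hz, rfl⟩ := Multiset.mem_map.1 hπ
      have t1 : ty c = true ↔ j % 2 = 0 := by
        by_contra h5
        exact g1 (by rw [gg_skip _ _ _ _ h5, g0])
      have z0 : gg TT h z j ≠ 0 := by
        rw [← gg_skip TT h z j]
        · exact fit_kids g1 hz
        · rw [(h2 z hz).1, ← t1]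
          cases ty c <;> simp
      exact good_Gp J j h (by omega) _ z (h2 z hz).2 (h2 z hz).1 z0
        (IH h (by omega) z (h2 z hz).2 z0)

theorem Gp_irr (J h : ℕ) (hJ : h ≤ J) (c : Cd h) (hc : WF h c) (N : ℕ) (h0 : gg TT h c N ≠ 0) :
    Irreducible (Gp J N h c) := by
  induction h using Nat.strong_induction_on generalizing N with
  | _ h ih =>
    classical
    have hex : ∃ j, gg TT h c (j + 1) ≠ 0 := ⟨N, gg_mono (Nat.le_succ N) h0⟩
    set j := Nat.find hex with hj
    have g1 : gg TT h c (j + 1) ≠ 0 := Nat.find_spec hex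
    have g0 : gg TT h c j = 0 := by
      rcases Nat.eq_zero_or_pos j with e | e
      · rw [e, gg_at_zero]
      · by_contra h1
        refine Nat.find_min hex (show j - 1 < j by omega) ?_
        rwa [show j - 1 + 1 = j by omega]
    have jN : j < N := by
      by_contra h1
      exact gg_mono (not_lt.1 h1) h0 g0
    obtain ⟨m, m1, s, s1, s2⟩ := fac J j h
      (fun h' hh z hz hz0 => ih h' hh (by omega) z hz j hz0) c hc g0 g1 0 (by omega)
    have hP := (deg_Gp J N h c hc hJ).1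
    have k0 : kap j (Gp J N h c) = UU (ty c) * (rr J j (ty c) m * s.prod) := by
      rw [kap_Gp, min_eq_right jN.le, Gp_def, g0, zero_add, s1]
    have k1 : kU (ty c) (kap (j + 1) (Gp J N h c)) = gg TT h c (j + 1) := by
      rw [kap_Gp, min_eq_right jN, kU_Gp _ _ _ _ hc]
    have n1 : kU (ty c) (rr J j (ty c) m * s.prod) ≠ 0 := by
      rw [map_mul, kU_rr _ _ _ _ m1, map_multiset_prod]
      refine mul_ne_zero (pow_ne_zero _ (lin_ne _ _)) (prod_ne fun π hπ a2 => (s2 π hπ).2.2 ?_)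
      rw [a2, map_zero]
    have key : ∀ p q : PP, Gp J N h c = p * q → UU (ty c) ∣ kap j p → IsUnit q := by
      rintro p q e ⟨p', hp'⟩
      have e0 : rr J j (ty c) m * s.prod = p' * kap j q := by
        refine mul_left_cancel₀ (UU_ne (ty c)) ?_
        rw [← k0, e, map_mul, hp', mul_assoc]
      have f3 : kU (ty c) (kap j q) ≠ 0 := by
        rw [e0, map_mul] at n1
        exact right_ne_zero_of_mul n1
      have hq0 : kap j q ≠ 0 := fun h1 => f3 (by rw [h1, map_zero])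
      have f1 : kU (!ty c) (kU (ty c) (kap (j + 1) q)) = kU (ty c) (kap (j + 1) q) := by
        refine kU_free ?_ g1 (kU_gg _ _ _ _)
        rw [← k1, e, map_mul, map_mul]
        exact Dvd.intro_left _ rfl
      have f2 : kU (!ty c) (kU (ty c) (kap j q)) = kU (ty c) (kap j q) := by
        have := congrArg (kap j) f1
        rwa [kap_kU, kap_kU, kap_kap j (j + 1) (Nat.le_succ j) q] at this
      have hu : IsUnit (kap j q) := by
        by_contra hu
        obtain ⟨π, π1, π2⟩ := WfDvdMonoid.exists_irreducible_factor hu hq0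
        rcases π1.prime.dvd_or_dvd (π2.trans (e0 ▸ Dvd.intro_left p' rfl)) with π3 | π3
        · exact π1.not_isUnit (rr_fac J j _ m m1 π3 (kU_free (map_dvd _ π2) f3 f2))
        · obtain ⟨a, ha, π4⟩ := π1.prime.exists_mem_multiset_dvd π3
          have d1 : a ∣ kap j q := ((π1.associated_of_dvd (s2 a ha).1 π4).symm.dvd).trans π2
          exact (s2 a ha).2.1 (kU_free (map_dvd _ d1) f3 f2)
      have hp0 : p ≠ 0 := left_ne_zero_of_mul (e ▸ hP)
      have hq1 : q ≠ 0 := right_ne_zero_of_mul (e ▸ hP)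
      have d1 := (deg_Gp J N h c hc hJ).2
      have d2 := (deg_Gp J (min N j) h c hc hJ).2
      rw [← kap_Gp, e, map_mul] at d2
      rw [e, totalDegree_mul_of_isDomain hp0 hq1] at d1
      have d3 := totalDegree_mul (kap j p) (kap j q)
      have d4 := (isUnit_iff_totalDegree_of_isReduced.1 hu).2
      have d5 : (kap j p).totalDegree ≤ p.totalDegree := kill_deg _ p
      exact unit_of_deg hq1 (by omega)
    refine ⟨fun hu => ?_, fun p q e => ?_⟩
    · have d1 := (deg_Gp J N h c hc hJ).2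
      rw [(isUnit_iff_totalDegree_of_isReduced.1 hu).2] at d1
      cases h with
      | zero => exact hc
      | succ h => rw [csz_succ] at d1; omega
    · have : UU (ty c) ∣ kap j p * kap j q := by
        rw [← map_mul, ← e, k0]
        exact Dvd.intro _ rfl
      rcases (X_prime (i := ix (ty c)) (R := ℚ)).dvd_or_dvd this with h1 | h1
      · exact Or.inr (key p q e h1)
      · exact Or.inl (key q p (by rw [e, mul_comm]) h1)

lemma kU_C (τ : Bool) (a : ℚ) : kU τ (C a) = C a := kill_C _ a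

lemma kU_ggp (τ : Bool) (h N : ℕ) (s : Multiset (Cd h)) :
    kU τ (s.map fun z => gg TT h z N).prod = (s.map fun z => gg TT h z N).prod := by
  rw [map_multiset_prod, Multiset.map_map]
  congr 1
  exact Multiset.map_congr rfl fun z _ => kU_gg _ _ _ _

lemma prod_of_inj (J h N : ℕ) (hJ : h ≤ J)
    (P : ∀ z z' : Cd h, WF h z → WF h z' → ty z = ty z' → gg TT h z N ≠ 0 → gg TT h z' N ≠ 0 →
      ∀ a : ℚ, a ≠ 0 → C a * Qp J N h z 0 = Qp J N h z' 0 → z = z')
    (τ : Bool) (s s' : Multiset (Cd h)) (hs : ∀ z ∈ s, WF h z ∧ ty z = τ ∧ gg TT h z N ≠ 0)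
    (hs' : ∀ z ∈ s', WF h z ∧ ty z = τ ∧ gg TT h z N ≠ 0)
    (e : Associated (s.map (Gp J N h)).prod (s'.map (Gp J N h)).prod) : s = s' := by
  have h1 := UniqueFactorizationMonoid.factors_unique (f := s.map (Gp J N h))
    (g := s'.map (Gp J N h))
    (fun x hx => by
      obtain ⟨z, hz, rfl⟩ := Multiset.mem_map.1 hx
      exact Gp_irr J h hJ z (hs z hz).1 N (hs z hz).2.2)
    (fun x hx => by
      obtain ⟨z, hz, rfl⟩ := Multiset.mem_map.1 hx
      exact Gp_irr J h hJ z (hs' z hz).1 N (hs' z hz).2.2) e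
  rw [Multiset.rel_map] at h1
  rw [← Multiset.rel_eq]
  refine h1.mono fun z hz z' hz' ⟨u, hu⟩ => ?_
  obtain ⟨r, hr0, hr⟩ := isUnit_iff_eq_C_of_isReduced.1 u.isUnit
  rw [hr] at hu
  have t : ty z = ty z' := (hs z hz).2.1.trans (hs' z' hz').2.1.symm
  have h4 := congrArg (kU (ty z)) hu
  rw [map_mul, kU_C, kU_Gp _ _ _ _ (hs z hz).1, t, kU_Gp _ _ _ _ (hs' z' hz').1] at h4
  rw [Gp_def, Gp_def, ← h4, add_mul, add_right_inj, mul_comm] at hu
  exact P z z' (hs z hz).1 (hs' z' hz').1 t (hs z hz).2.2 (hs' z' hz').2.2 r hr0.ne_zero hu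

lemma mixed (N : ℕ) {h : ℕ} {c c' : Cd (h + 1)} {z : Cd h} (h1 : kd c = {z}) (h2 : hole c)
    (h4 : WF h z) (h0 : gg TT (h + 1) c N ≠ 0) (h1' : ¬ hole c') (a b : ℚ) (ha : a ≠ 0)
    (e : C a * ph N (h + 1) c = C b * ph N (h + 1) c') : False := by
  rw [ph_hole N h1 h2, ph_true N h1'] at e
  have z0 : gg TT h z N ≠ 0 := fit_kids h0 (h1 ▸ Multiset.mem_singleton_self z)
  have e2 : (UU (ty c) + SS TT N) * (C a * ph N h z) =
      C b * ((kd c').map fun z => gg TT h z N).prod - C a * gg TT h z N := by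
    linear_combination e
  have e3 := lin_dvd (τ := ty c) (N := N) ⟨_, e2.symm⟩
    (by rw [map_sub, map_mul, map_mul, kU_C, kU_C, kU_ggp, kU_gg])
  rw [← e2] at e3
  exact mul_ne_zero (lin_ne _ _) (mul_ne_zero (C_ne_zero.2 ha) (ph_ne N h z h4 z0)) e3

lemma cd_ext {h : ℕ} {c c' : Cd (h + 1)} (h1 : ty c = ty c') (h2 : kd c = kd c') : c = c' :=
  Prod.ext h1 h2

theorem Qp_inj (J N h : ℕ) (z z' : Cd h) (hz : WF h z) (hz' : WF h z') (t : ty z = ty z')
    (g : gg TT h z N ≠ 0) (g' : gg TT h z' N ≠ 0) (k : ℕ) (hk : k + h ≤ J) (a : ℚ) (ha : a ≠ 0)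
    (e : C a * Qp J N h z k = Qp J N h z' k) : z = z' := by
  induction h generalizing k a with
  | zero => rfl
  | succ h ih =>
    have hJ : 0 < J := by omega
    have e1 : C a * ph N (h + 1) z = ph N (h + 1) z' := by
      have h1 := congrArg (kU (!ty z)) e
      rw [map_mul, kU_C, kV_Qp J N hJ _ _ hz, t, kV_Qp J N hJ _ _ hz', mul_left_comm] at h1
      exact mul_left_cancel₀ (mul_ne_zero (UU_ne _) (pow_ne_zero _ (lin_ne _ _))) h1
    rcases WF_cases hz with ⟨w, h1, h2, h3, h4⟩ | ⟨h1, h2⟩ <;>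
      rcases WF_cases hz' with ⟨w', h1', h2', h3', h4'⟩ | ⟨h1', h2'⟩
    · rw [ph_hole N h1 h2, ph_hole N h1' h2', ← t] at e1
      have e2 : C a * gg TT h w N - gg TT h w' N = 0 := by
        refine lin_dvd (τ := ty z) (N := N) ⟨ph N h w' - C a * ph N h w, ?_⟩ ?_
        · linear_combination e1
        · rw [map_sub, map_mul, kU_C, kU_gg, kU_gg]
      rw [Qp_hole J N h1 h2, Qp_hole J N h1' h2', ← t] at e
      have e3 : C a * Qp J N h w (k + 1) = Qp J N h w' (k + 1) := by
        linear_combination e - (UU (ty z) * rr J N (ty z) k) * e2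
      have e4 := ih w w' h4 h4' (h3.trans (t.trans h3'.symm))
        (fit_kids g (h1 ▸ Multiset.mem_singleton_self w))
        (fit_kids g' (h1' ▸ Multiset.mem_singleton_self w')) (k + 1) (by omega) a ha e3
      exact cd_ext t (by rw [h1, h1', e4])
    · exact (mixed N h1 h2 h4 g h1' a 1 ha (by rw [C_1, one_mul, e1])).elim
    · exact (mixed N h1' h2' h4' g' h1 1 a one_ne_zero (by rw [C_1, one_mul, e1])).elim
    · rw [Qp_true J N h1, Qp_true J N h1', ← t, mul_left_comm] at e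
      have e2 := mul_left_cancel₀ (mul_ne_zero (UU_ne _) (rr_ne J N _ k (by omega))) e
      refine cd_ext t (prod_of_inj J h N (by omega)
        (fun x x' a1 a2 a3 a4 a5 b hb a6 => ih x x' a1 a2 a3 a4 a5 0 (by omega) b hb a6) (!ty z) _ _
        (fun x hx => ⟨(h2 x hx).2, (h2 x hx).1, fit_kids g hx⟩)
        (fun x hx => ⟨(h2' x hx).2, t ▸ (h2' x hx).1, fit_kids g' hx⟩) ?_)
      rw [← e2]
      exact (associated_unit_mul_left _ _ ((IsUnit.mk0 a ha).map C)).symm

theorem prod_inj (J h N : ℕ) (hJ : h ≤ J) (τ : Bool) (s s' : Multiset (Cd h))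
    (hs : ∀ z ∈ s, WF h z ∧ ty z = τ ∧ gg TT h z N ≠ 0)
    (hs' : ∀ z ∈ s', WF h z ∧ ty z = τ ∧ gg TT h z N ≠ 0)
    (e : (s.map (Gp J N h)).prod = (s'.map (Gp J N h)).prod) : s = s' :=
  prod_of_inj J h N hJ (fun x x' a1 a2 a3 a4 a5 b hb a6 =>
    Qp_inj J N h x x' a1 a2 a3 a4 a5 0 (by omega) b hb a6) τ s s' hs hs' (e ▸ Associated.refl _)

end Pool.Agent.Work.MP_be9894_co.Sb
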