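import Pool.Agent.Work.MP_be9894_co.H2Main

set_option autoImplicit false
set_option linter.unusedSectionVars false

namespace Pool.Agent.Work.MP_be9894_co.Sb

open Finset Pool.Agent.Work.MP_be9894_co.H2

/-- every element with two lower covers is maximal -/
def Jm (α : Type) [PartialOrder α] : Prop := ∀ a b c d : α, a ⋖ c → b ⋖ c → a ≠ b → ¬ c < d

/-- every element with two upper covers is minimal -/
def Mm (α : Type) [PartialOrder α] : Prop := ∀ a b c d : α, c ⋖ a → c ⋖ b → a ≠ b → ¬ d < c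

/-- `AD w x i`: the branch at the neighbour `x` of `w`, away from `w`, carries a window labelling
with labels below `i` -/
inductive AD {α : Type} [PartialOrder α] : α → α → ℕ → Prop
  | mk (w x : α) (k i : ℕ) : k < i → (x < w ↔ k % 2 = 0) →
      (∀ z, (z ⋖ x ∨ x ⋖ z) → z ≠ w → AD x z (k + 1)) → AD w x i

def VN {α : Type} [PartialOrder α] (N : ℕ) (r : α) : Prop := ∀ x, (x ⋖ r ∨ r ⋖ x) → AD r x N

variable {α : Type} [Fintype α] [PartialOrder α] [DecidableEq α]

def has (T : RT α) (N : ℕ) (y : α → ℕ) (x : α) : Prop := ∃ u ∈ T.desc x, N ≤ y u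

noncomputable def EE (T : RT α) (N : ℕ) (y : α → ℕ) (x : α) : ℤ := ∑ u ∈ T.desc x, exc N (y u)

def Cond (T : RT α) (N : ℕ) (y : α → ℕ) (x : α) : Prop :=
  (has T N y x → (x < T.p x → 0 ≤ EE T N y x) ∧ (¬ x < T.p x → EE T N y x ≤ -1)) ∧
    (¬ has T N y x → (x < T.p x ↔ (T.desc x).sup y % 2 = 0))

/-- a pinned centre -/
def Cen (N n : ℕ) (c : α) : Prop :=
  VN N c ∧ (∀ x, (x ⋖ c ∨ c ⋖ x) → (x < c ↔ N % 2 = 1)) ∧ ∀ y : α → ℕ, Valid N n 0 y → N ≤ y c

lemma lt_p_iff (T : RT α) {z : α} (hz : z ≠ T.r) : z < T.p z ↔ z ⋖ T.p z :=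
  ⟨fun h => (T.adj z hz).resolve_right fun h1 => lt_asymm h h1.lt, fun h => h.lt⟩

lemma not_lt_p_iff (T : RT α) {z : α} (hz : z ≠ T.r) : ¬ z < T.p z ↔ T.p z ⋖ z :=
  ⟨fun h => (T.adj z hz).resolve_left fun h1 => h h1.lt, fun h h1 => lt_asymm h.lt h1⟩

theorem valid_iff_cond (T : RT α) (N n : ℕ) (hn : Fintype.card α ≤ n) (y : α → ℕ)
    (hr : N ≤ y T.r) :
    Valid N n 0 y ↔ EE T N y T.r = -1 ∧ ∀ x, x ≠ T.r → Cond T N y x := by
  classical
  have a1 : 1 ≤ ∑ b, blk N (y b) := by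
    rw [sum_blk]
    exact_mod_cast card_pos.2 ⟨T.r, mem_filter.2 ⟨mem_univ _, hr⟩⟩
  have a2 : (∑ b, (exc N (y b) : ℚ) = -1) ↔ EE T N y T.r = -1 := by
    unfold EE
    rw [T.desc_root]
    constructor <;> intro h <;> exact_mod_cast h
  have key : ∀ z, z ≠ T.r → (((z ⋖ T.p z → 0 ≤ ∑ a ∈ T.desc z, YY N n 0 y a) ∧
      (T.p z ⋖ z → ∑ a ∈ T.desc z, YY N n 0 y a ≤ 0)) ↔ Cond T N y z) := by
    intro z hz
    rw [← lt_p_iff T hz, ← not_lt_p_iff T hz]
    unfold Cond
    by_cases h : has T N y z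
    · obtain ⟨u, hu, hu2⟩ := h
      have h1 := limb_block N n 0 hn y (T.desc z) T.r u
        (fun h => T.not_anc_root hz (T.mem_desc.1 h)) hr hu hu2
      have h2 : has T N y z := ⟨u, hu, hu2⟩
      rw [h1.1, h1.2]
      exact ⟨fun h3 => ⟨fun _ => h3, fun h4 => absurd h2 h4⟩, fun h3 => h3.1 h2⟩
    · obtain ⟨a, ha, hm⟩ := Finset.exists_mem_eq_sup (T.desc z)
        ⟨z, T.mem_desc.2 (T.anc_refl z)⟩ y
      have h1 := limb_win N n 0 hn y (T.desc z) a ha (not_le.1 fun h2 => h ⟨a, ha, h2⟩)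
        (fun b hb => hm ▸ Finset.le_sup hb)
      rw [hm]
      constructor
      · intro h3
        refine ⟨fun h4 => absurd h4 h, fun _ => ⟨fun h4 => ?_, fun h4 => ?_⟩⟩
        · by_contra h5
          exact absurd (h3.1 h4) (not_le.2 (h1.2 h5))
        · by_contra h5
          exact absurd (h3.2 h5) (not_le.2 (h1.1 h4))
      · intro h3
        have h4 := h3.2 h
        exact ⟨fun h5 => (h1.1 (h4.1 h5)).le, fun h5 => (h1.2 fun h6 => h5 (h4.2 h6)).le⟩
  constructor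
  · rintro ⟨⟨_, b2⟩, hV⟩
    exact ⟨a2.1 b2, fun x hx => (key x hx).1 ((T.valid_iff _ (sum_YY_univ a1 b2)).1 hV x hx)⟩
  · rintro ⟨b1, b2⟩
    exact ⟨⟨a1, a2.2 b1⟩, (T.valid_iff _ (sum_YY_univ a1 (a2.2 b1))).2
      fun x hx => (key x hx).2 (b2 x hx)⟩

/-- typed rooted trees cut at a given depth -/
def Cd : ℕ → Type
  | 0 => Unit
  | h + 1 => Bool × Multiset (Cd h)

def ty : {h : ℕ} → Cd h → Bool
  | 0, _ => true
  | _ + 1, c => Prod.fst c

def kd {h : ℕ} (c : Cd (h + 1)) : Multiset (Cd h) := Prod.snd c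

def hole {h : ℕ} (c : Cd (h + 1)) : Prop := ∃ z ∈ kd c, ty z = ty c

def WF : (h : ℕ) → Cd h → Prop
  | 0, _ => False
  | h + 1, c => (∀ z ∈ kd c, WF h z) ∧ (hole c → ∃ z, kd c = {z})

open Classical in
noncomputable def cd (T : RT α) : (h : ℕ) → α → Cd h
  | 0, _ => ()
  | h + 1, x => (decide (x < T.p x), (T.ch x).val.map (cd T h))

section defs

variable {R : Type} [CommRing R]

def SS (t : ℕ → R) (i : ℕ) : R := ∑ l ∈ range i, t l

def gg (t : ℕ → R) : (h : ℕ) → Cd h → ℕ → R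
  | 0, _, _ => 0
  | h + 1, c, i => ∑ j ∈ range i, if (ty c = true ↔ j % 2 = 0) then
      SS t (j + 1) * ((kd c).map fun z => gg t h z (j + 1)).prod -
        SS t j * ((kd c).map fun z => gg t h z j).prod else 0

def om (J : ℕ) (lam u v : R) (τ : Bool) : ℕ → ℤ → R
  | 0, e => if (if τ = true then e = 0 else e ≤ -1) then 1 else 0
  | k + 1, e => if (if τ = true then 0 ≤ e else e ≤ -1) then
      lam * om J lam u v τ k e + v * om J lam u v τ k (e - 1) +
        u * ∑ j ∈ range J, om J lam u v τ k (e + j) else 0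

def rho (J : ℕ) (lam u v : R) (τ : Bool) (k : ℕ) : R :=
  if τ = true then ∑ j ∈ range J, om J lam u v τ k j else om J lam u v τ k (-1)

def RR (J : ℕ) (lam u v : R) (τ : Bool) (k : ℕ) : R :=
  (if τ = true then u else v) * rho J lam u v τ k

open Classical in
noncomputable def qq (J : ℕ) (t : ℕ → R) (u v : R) (N : ℕ) : (h : ℕ) → Cd h → ℕ → R
  | 0, _, _ => 0
  | h + 1, c, k => if hole c then
      ((kd c).map fun z => RR J (SS t N) u v (ty c) k * gg t h z N + qq J t u v N h z (k + 1)).prod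
    else RR J (SS t N) u v (ty c) k * ((kd c).map fun z => gg t h z N + qq J t u v N h z 0).prod

noncomputable def GG (J : ℕ) (t : ℕ → R) (u v : R) (N h : ℕ) (c : Cd h) : R :=
  gg t h c N + qq J t u v N h c 0

def wt (N : ℕ) (t : ℕ → R) (u v : R) (l : ℕ) : R := if l < N then t l else if l = N then v else u

noncomputable def Th (α : Type) [Fintype α] [PartialOrder α] (N n J : ℕ) (t : ℕ → R) (u v : R) : R :=
  Theta (Λ := Fin (N + 1 + J)) α (fun _ l => wt N t u v l)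
    (fun c => 1 ≤ tot c (blk N) ∧ tot c (fun l => exc N l) = -1)
    (fun c l => exc N l + win N n 0 l + blk N l * ((1 - tot c (win N n 0)) / tot c (blk N)))

open Classical in
lemma Th_def (N n J : ℕ) (t : ℕ → R) (u v : R) : Th α N n J t u v =
    ∑ y : α → Fin (N + 1 + J), if Valid N n 0 (fun a => (y a : ℕ)) then
      ∏ a, wt N t u v (y a) else 0 := by
  unfold Th Theta
  refine Finset.sum_congr (by congr; exact Subsingleton.elim _ _) fun y _ => ?_
  simp only [tot_ct]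
  exact if_congr Iff.rfl rfl rfl

end defs

end Pool.Agent.Work.MP_be9894_co.Sb
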