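import Pool.Agent.Work.MP_be9894_co.Sb.Lab

set_option autoImplicit false
set_option linter.unusedSectionVars false

namespace Pool.Agent.Work.MP_be9894_co.Sb

open Finset
open Pool.Agent.Work.MP_be9894_co.H2 (RT exc blk Valid exc_ge)

variable {α : Type} [Fintype α] [PartialOrder α] [DecidableEq α] {R : Type} [CommRing R]

open Classical in
noncomputable def fg (T : RT α) (N : ℕ) (w : ℕ → R) (i : ℕ) (x : α) (y : α → ℕ) : R :=
  if OK T N y x ∧ ∀ a ∈ T.desc x, y a < i then Wt T w y x else 0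

open Classical in
noncomputable def fq (T : RT α) (N : ℕ) (w : ℕ → R) (φ : ℤ → R) (x : α) (y : α → ℕ) : R :=
  if OK T N y x ∧ has T N y x then Wt T w y x * φ (EE T N y x) else 0

lemma fg_dep (T : RT α) (N : ℕ) (w : ℕ → R) (i : ℕ) (x : α) : Dep (fg T N w i x) (T.desc x) := by
  classical
  intro f g h
  unfold fg
  rw [Wt_congr T w h]
  exact if_congr (and_congr (OK_congr T N h) (forall₂_congr fun a ha => by rw [h a ha])) rfl rfl

lemma fq_dep (T : RT α) (N : ℕ) (w : ℕ → R) (φ : ℤ → R) (x : α) :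
    Dep (fq T N w φ x) (T.desc x) := by
  classical
  intro f g h
  unfold fq
  rw [Wt_congr T w h, EE_congr T N h]
  exact if_congr (and_congr (OK_congr T N h) (has_congr T N h)) rfl rfl

open Classical in
lemma ty_cd (T : RT α) (h : ℕ) (x : α) : ty (cd T (h + 1) x) = decide (x < T.p x) := rfl

lemma ty_cd_iff (T : RT α) (h : ℕ) (x : α) : ty (cd T (h + 1) x) = true ↔ x < T.p x := by
  rw [ty_cd]; simp

lemma kd_cd (T : RT α) (h : ℕ) (x : α) : kd (cd T (h + 1) x) = (T.ch x).val.map (cd T h) := rfl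

lemma prod_cd (T : RT α) (h : ℕ) (x : α) (F : Cd h → R) :
    (((T.ch x).val.map (cd T h)).map F).prod = ∏ z ∈ T.ch x, F (cd T h z) := by
  rw [Multiset.map_map, Finset.prod_eq_multiset_prod]
  rfl

open Classical in
lemma sum_fh (T : RT α) (N J : ℕ) (t : ℕ → R) (u v : R) (x : α) (i : ℕ) (hi : i ≤ N) :
    ∑ y ∈ lb (N + 1 + J) (T.desc x), (if (∀ z ∈ T.ch x, OK T N y z) ∧ ∀ a ∈ T.desc x, y a < i then
      Wt T (wt N t u v) y x else 0) =
    SS t i * ∏ z ∈ T.ch x, ∑ y ∈ lb (N + 1 + J) (T.desc z), fg T N (wt N t u v) i z y := by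
  rw [sum_lb_desc, ← sum_lb_biUnion _ _ _ (disj_ch T x) _ (fun z _ => fg_dep T N _ i z),
    Finset.mul_sum]
  refine Finset.sum_congr rfl fun f _ => ?_
  have e1 : SS t i = ∑ j ∈ range (N + 1 + J), if j < i then wt N t u v j else 0 := by
    unfold SS
    refine Finset.sum_subset_zero_on_sdiff (range_subset_range.2 (by omega)) ?_ ?_
    · intro j hj
      simp only [mem_sdiff, mem_range] at hj
      rw [if_neg hj.2]
    · intro j hj
      have := mem_range.1 hj
      rw [if_pos this, wt, if_pos (by omega)]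
  rw [e1, Finset.sum_mul]
  refine Finset.sum_congr rfl fun j _ => ?_
  rw [← Finset.prod_congr rfl fun z hz => (fg_dep T N _ i z).upd (not_mem_desc_ch T hz) f j]
  have e2 : Function.update f x j x = j := Function.update_self _ _ _
  generalize Function.update f x j = y at e2
  subst e2
  unfold fg
  rw [Finset.prod_ite_zero, Wt_rec]
  by_cases a2 : y x < i
  · rw [if_pos a2]
    by_cases a3 : ∀ z ∈ T.ch x, OK T N y z ∧ ∀ a ∈ T.desc z, y a < i
    · rw [if_pos a3,
        if_pos ⟨fun z hz => (a3 z hz).1, (forall_desc T x _).2 ⟨a2, fun z hz => (a3 z hz).2⟩⟩]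
    · rw [if_neg a3, mul_zero,
        if_neg fun a1 => a3 fun z hz => ⟨a1.1 z hz, ((forall_desc T x _).1 a1.2).2 z hz⟩]
  · rw [if_neg a2, zero_mul, if_neg fun a1 => a2 ((forall_desc T x _).1 a1.2).1]

theorem sum_fg (T : RT α) (N J D : ℕ) (hD : ∀ x, T.dep x ≤ D) (t : ℕ → R) (u v : R) :
    ∀ x h, D + 1 ≤ h + T.dep x → ∀ i, i ≤ N →
      ∑ y ∈ lb (N + 1 + J) (T.desc x), fg T N (wt N t u v) i x y = gg t h (cd T h x) i := by
  classical
  refine T.ind_up _ fun x ih h hh i hi => ?_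
  obtain ⟨h, rfl⟩ : ∃ k, h = k + 1 := ⟨h - 1, by have := hD x; omega⟩
  have e : ∀ i, i ≤ N → ∏ z ∈ T.ch x, ∑ y ∈ lb (N + 1 + J) (T.desc z), fg T N (wt N t u v) i z y =
      ((kd (cd T (h + 1) x)).map fun z => gg t h z i).prod := fun i hi => by
    rw [kd_cd, prod_cd]
    exact Finset.prod_congr rfl fun z hz => ih z hz h (by rw [T.dep_ch hz]; omega) i hi
  induction i with
  | zero =>
    rw [gg_at_zero]
    refine Finset.sum_eq_zero fun y _ => ?_
    rw [fg, if_neg fun h1 => Nat.not_lt_zero _ (h1.2 x (self_desc T x))]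
  | succ i ih2 =>
    rw [gg_succ, Finset.sum_range_succ, ← gg_succ, ← ih2 (by omega), ← e (i + 1) hi,
      ← e i (by omega), ← sum_fh T N J t u v x (i + 1) hi, ← sum_fh T N J t u v x i (by omega),
      ← Finset.sum_sub_distrib]
    have key : ∀ y : α → ℕ, fg T N (wt N t u v) (i + 1) x y = fg T N (wt N t u v) i x y +
        if (ty (cd T (h + 1) x) = true ↔ i % 2 = 0) then
          (if (∀ z ∈ T.ch x, OK T N y z) ∧ ∀ a ∈ T.desc x, y a < i + 1 then
            Wt T (wt N t u v) y x else 0) -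
          (if (∀ z ∈ T.ch x, OK T N y z) ∧ ∀ a ∈ T.desc x, y a < i then
            Wt T (wt N t u v) y x else 0) else 0 := by
      intro y
      unfold fg
      by_cases b1 : ∀ a ∈ T.desc x, y a < i
      · have b2 : ∀ a ∈ T.desc x, y a < i + 1 := fun a ha => (b1 a ha).trans (Nat.lt_succ_self i)
        simp only [eq_true b1, eq_true b2, and_true, sub_self, ite_self, add_zero]
      · by_cases b2 : ∀ a ∈ T.desc x, y a < i + 1
        · have b3 : (T.desc x).sup y = i := by
            refine le_antisymm (Finset.sup_le fun a ha => Nat.le_of_lt_succ (b2 a ha)) ?_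
            push Not at b1
            obtain ⟨a, ha, h1⟩ := b1
            exact h1.trans (Finset.le_sup ha)
          have b4 : ¬ has T N y x := (not_has T N y x).2 fun a ha => (b2 a ha).trans_le hi
          have b5 : Cond T N y x ↔ (ty (cd T (h + 1) x) = true ↔ i % 2 = 0) := by
            rw [ty_cd_iff, Cond, b3]
            exact ⟨fun h1 => h1.2 b4, fun h1 => ⟨fun h2 => absurd h2 b4, fun _ => h1⟩⟩
          simp only [eq_false b1, eq_true b2, and_true, and_false, if_false, sub_zero, zero_add,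
            OK_rec T N y x, b5]
          split_ifs with a1 a2 a3 a2 a3
          · rfl
          · exact absurd a1.2 a3
          · exact absurd a1.1 a2
          · exact absurd ⟨a2, a3⟩ a1
          · rfl
          · rfl
        · simp only [eq_false b1, eq_false b2, and_false, if_false, sub_self, ite_self, add_zero]
    rw [Finset.sum_congr rfl fun y _ => key y, Finset.sum_add_distrib]
    congr 1
    split_ifs
    · rfl
    · exact Finset.sum_const_zero

open Classical in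
/-- summing out the label of `x` -/
lemma sum_upd (T : RT α) (N J : ℕ) (t : ℕ → R) (u v : R) (φ : ℤ → R) (x : α) (f : α → ℕ) (P : Prop)
    [Decidable P] :
    ∑ j ∈ range (N + 1 + J), (if (∀ z ∈ T.ch x, OK T N (Function.update f x j) z) ∧ (N ≤ j ∨ P) then
      Wt T (wt N t u v) (Function.update f x j) x * φ (EE T N (Function.update f x j) x) else 0) =
    if ∀ z ∈ T.ch x, OK T N f z then (∏ z ∈ T.ch x, Wt T (wt N t u v) f z) *
      ((if P then SS t N * φ (∑ z ∈ T.ch x, EE T N f z) else 0) +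
        v * φ (∑ z ∈ T.ch x, EE T N f z - 1) +
        u * ∑ j ∈ range J, φ (∑ z ∈ T.ch x, EE T N f z + j)) else 0 := by
  have e := sum_wt N J t u v (fun e => φ (∑ z ∈ T.ch x, EE T N f z + e)) P
  rw [add_zero, ← sub_eq_add_neg] at e
  rw [← e]
  have a1 : ∀ j, (∀ z ∈ T.ch x, OK T N (Function.update f x j) z) ↔ ∀ z ∈ T.ch x, OK T N f z :=
    fun j => forall₂_congr fun z hz => OK_congr T N (upd_ch T hz f j)
  have a2 : ∀ j, Wt T (wt N t u v) (Function.update f x j) x =
      wt N t u v j * ∏ z ∈ T.ch x, Wt T (wt N t u v) f z := fun j => by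
    rw [Wt_rec, Function.update_self,
      Finset.prod_congr rfl fun z hz => Wt_congr T _ (upd_ch T hz f j)]
  have a3 : ∀ j, EE T N (Function.update f x j) x = ∑ z ∈ T.ch x, EE T N f z + exc N j := fun j => by
    rw [EE_rec, Function.update_self, add_comm,
      Finset.sum_congr rfl fun z hz => EE_congr T _ (upd_ch T hz f j)]
  simp only [a2, a3]
  split_ifs with b1
  · rw [Finset.mul_sum]
    refine Finset.sum_congr rfl fun j _ => ?_
    by_cases b2 : N ≤ j ∨ P
    · rw [if_pos ⟨(a1 j).2 b1, b2⟩, if_pos b2]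
      ring
    · rw [if_neg fun h => b2 h.2, if_neg b2, mul_zero]
  · exact Finset.sum_eq_zero fun j _ => if_neg fun h => b1 ((a1 j).1 h.1)

open Classical in
lemma sum_fq_upd (T : RT α) (N J : ℕ) (t : ℕ → R) (u v : R) (k : ℕ) (x : α) (τ : Bool)
    (hτ : τ = true ↔ x < T.p x) (f : α → ℕ) :
    ∑ j ∈ range (N + 1 + J), fq T N (wt N t u v) (om J (SS t N) u v τ k) x (Function.update f x j) =
    if ∀ z ∈ T.ch x, OK T N f z then (∏ z ∈ T.ch x, Wt T (wt N t u v) f z) *
      ((if (∃ z ∈ T.ch x, has T N f z) then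
          SS t N * om J (SS t N) u v τ k (∑ z ∈ T.ch x, EE T N f z) else 0) +
        v * om J (SS t N) u v τ k (∑ z ∈ T.ch x, EE T N f z - 1) +
        u * ∑ j ∈ range J, om J (SS t N) u v τ k (∑ z ∈ T.ch x, EE T N f z + j)) else 0 := by
  rw [← sum_upd T N J t u v (om J (SS t N) u v τ k) x f]
  refine Finset.sum_congr rfl fun j _ => ?_
  have e1 : has T N (Function.update f x j) x ↔ N ≤ j ∨ ∃ z ∈ T.ch x, has T N f z := by
    rw [has_rec, Function.update_self]
    refine or_congr Iff.rfl (exists_congr fun z => and_congr_right fun hz => ?_)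
    exact has_congr T N (upd_ch T hz f j)
  generalize Function.update f x j = y at e1
  unfold fq
  by_cases b1 : (∀ z ∈ T.ch x, OK T N y z) ∧ (N ≤ j ∨ ∃ z ∈ T.ch x, has T N f z)
  · rw [if_pos b1]
    by_cases b2 : Cond T N y x
    · rw [if_pos ⟨(OK_rec T N y x).2 ⟨b2, b1.1⟩, e1.2 b1.2⟩]
    · rw [if_neg fun h => b2 ((OK_rec T N y x).1 h.1).1, om_inval, mul_zero]
      intro b3
      refine b2 ⟨fun _ => ⟨fun h => ?_, fun h => ?_⟩, fun h => absurd (e1.2 b1.2) h⟩
      · rwa [if_pos (hτ.2 h)] at b3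
      · rwa [if_neg fun h1 => h (hτ.1 h1)] at b3
  · rw [if_neg b1, if_neg fun h => b1 ⟨((OK_rec T N y x).1 h.1).2, e1.1 h.2⟩]

lemma cond_of_OK (T : RT α) (N : ℕ) {f : α → ℕ} {z : α} (h : OK T N f z) :
    (z < T.p z → 0 ≤ EE T N f z) ∧ (¬ z < T.p z → EE T N f z ≤ 0) ∧
      (¬ z < T.p z → has T N f z → EE T N f z ≤ -1) := by
  have h1 := h z (self_desc T z)
  by_cases h2 : has T N f z
  · exact ⟨(h1.1 h2).1, fun h3 => ((h1.1 h2).2 h3).trans (by omega), fun h3 _ => (h1.1 h2).2 h3⟩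
  · rw [EE_zero T N f z h2]
    exact ⟨fun _ => le_rfl, fun _ => le_rfl, fun _ h3 => absurd h3 h2⟩

open Classical in
noncomputable def fG (T : RT α) (N J : ℕ) (t : ℕ → R) (u v : R) (σ : Bool) (z : α) (f : α → ℕ) : R :=
  fg T N (wt N t u v) N z f + fq T N (wt N t u v) (om J (SS t N) u v σ 0) z f

lemma fG_dep (T : RT α) (N J : ℕ) (t : ℕ → R) (u v : R) (σ : Bool) (z : α) :
    Dep (fG T N J t u v σ z) (T.desc z) := fun f g h => by
  unfold fG
  rw [fg_dep T N _ N z f g h, fq_dep T N _ _ z f g h]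

open Classical in
lemma fg_eq (T : RT α) (N : ℕ) (w : ℕ → R) (z : α) (f : α → ℕ) :
    fg T N w N z f = if OK T N f z ∧ ¬ has T N f z then Wt T w f z else 0 :=
  if_congr (and_congr Iff.rfl (not_has T N f z).symm) rfl rfl

open Classical in
lemma fG_true (T : RT α) (N J : ℕ) (t : ℕ → R) (u v : R) (z : α) (f : α → ℕ) :
    fG T N J t u v true z f =
      if OK T N f z ∧ EE T N f z = 0 then Wt T (wt N t u v) f z else 0 := by
  rw [fG, fg_eq, fq, om_t0]
  by_cases h1 : OK T N f z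
  · by_cases h2 : has T N f z
    · simp [h1, h2]
    · simp [h1, h2, EE_zero T N f z h2]
  · simp [h1]

open Classical in
lemma fG_false (T : RT α) (N J : ℕ) (t : ℕ → R) (u v : R) (z : α) (hz : ¬ z < T.p z) (f : α → ℕ) :
    fG T N J t u v false z f = if OK T N f z then Wt T (wt N t u v) f z else 0 := by
  rw [fG, fg_eq, fq, om_f0]
  by_cases h1 : OK T N f z
  · by_cases h2 : has T N f z
    · simp [h1, h2, (cond_of_OK T N h1).2.2 hz h2]
    · simp [h1, h2]
  · simp [h1]

open Classical in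
lemma prod_fG_true (T : RT α) (N J : ℕ) (t : ℕ → R) (u v : R) (x : α)
    (hx : ∀ z ∈ T.ch x, z < T.p z) (f : α → ℕ) : ∏ z ∈ T.ch x, fG T N J t u v true z f =
      if ∀ z ∈ T.ch x, OK T N f z then (∏ z ∈ T.ch x, Wt T (wt N t u v) f z) *
        (if ∑ z ∈ T.ch x, EE T N f z = 0 then 1 else 0) else 0 := by
  simp only [fG_true]
  rw [Finset.prod_ite_zero]
  by_cases h1 : ∀ z ∈ T.ch x, OK T N f z
  · have h2 := Finset.sum_eq_zero_iff_of_nonneg fun z hz => (cond_of_OK T N (h1 z hz)).1 (hx z hz)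
    rw [if_pos h1]
    by_cases h3 : ∑ z ∈ T.ch x, EE T N f z = 0
    · rw [if_pos h3, if_pos fun z hz => ⟨h1 z hz, h2.1 h3 z hz⟩, mul_one]
    · rw [if_neg h3, if_neg fun h => h3 (h2.2 fun z hz => (h z hz).2), mul_zero]
  · rw [if_neg h1, if_neg fun h => h1 fun z hz => (h z hz).1]

open Classical in
lemma prod_fG_false (T : RT α) (N J : ℕ) (t : ℕ → R) (u v : R) (x : α)
    (hx : ∀ z ∈ T.ch x, ¬ z < T.p z) (f : α → ℕ) : ∏ z ∈ T.ch x, fG T N J t u v false z f =
      if ∀ z ∈ T.ch x, OK T N f z then ∏ z ∈ T.ch x, Wt T (wt N t u v) f z else 0 := by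
  rw [Finset.prod_congr rfl fun z hz => fG_false T N J t u v z (hx z hz) f, Finset.prod_ite_zero]
  split_ifs <;> rfl

lemma sum_EE_neg (T : RT α) (N : ℕ) (x : α) (hx : ∀ z ∈ T.ch x, ¬ z < T.p z) (f : α → ℕ)
    (h1 : ∀ z ∈ T.ch x, OK T N f z) : ∃ m : ℕ, m ≤ Fintype.card α ∧
      ∑ z ∈ T.ch x, EE T N f z = -(m : ℤ) ∧ ((∃ z ∈ T.ch x, has T N f z) ↔ 0 < m) := by
  have a1 : ∀ z ∈ T.ch x, EE T N f z ≤ 0 := fun z hz => (cond_of_OK T N (h1 z hz)).2.1 (hx z hz)
  have a2 := Finset.sum_nonpos a1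
  have a3 : -(Fintype.card α : ℤ) ≤ ∑ z ∈ T.ch x, EE T N f z := by
    have b1 := Finset.sum_le_sum fun z (_ : z ∈ T.ch x) => EE_ge T N f z
    have b2 : ∑ z ∈ T.ch x, (T.desc z).card ≤ Fintype.card α := by
      rw [← Finset.card_biUnion fun i hi j hj hne => disj_ch T x i hi j hj hne]
      exact card_le_univ _
    rw [Finset.sum_neg_distrib, ← Nat.cast_sum] at b1
    omega
  refine ⟨(-∑ z ∈ T.ch x, EE T N f z).toNat, by omega, by omega, ?_, fun h => ?_⟩
  · rintro ⟨z, hz, h⟩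
    have b1 := (cond_of_OK T N (h1 z hz)).2.2 (hx z hz) h
    have b2 : ∑ z ∈ T.ch x, EE T N f z ≠ 0 := fun e => by
      have := (Finset.sum_eq_zero_iff_of_nonpos a1).1 e z hz
      omega
    omega
  · by_contra h2
    rw [Finset.sum_eq_zero fun z hz => EE_zero T N f z fun h3 => h2 ⟨z, hz, h3⟩] at h
    omega

theorem sum_fq (T : RT α) (N J D : ℕ) (hD : ∀ x, T.dep x ≤ D) (hJ : D + Fintype.card α < J)
    (hS : ∀ x, x ≠ T.r → ∀ z ∈ T.ch x, (z < x ↔ x < T.p x) → T.ch x = {z}) (t : ℕ → R) (u v : R) :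
    ∀ x, x ≠ T.r → ∀ h, D + 1 ≤ h + T.dep x → ∀ k, k ≤ T.dep x → ∀ τ, (τ = true ↔ x < T.p x) →
      ∑ y ∈ lb (N + 1 + J) (T.desc x), fq T N (wt N t u v) (om J (SS t N) u v τ k) x y =
        qq J t u v N h (cd T h x) k := by
  classical
  refine T.ind_up _ fun x ih hx h hh k hk τ hτ => ?_
  have hdx := hD x
  obtain ⟨h, rfl⟩ : ∃ k, h = k + 1 := ⟨h - 1, by omega⟩
  have tτ : ty (cd T (h + 1) x) = τ := by
    rw [Bool.eq_iff_iff, ty_cd_iff, hτ]
  have lev : ∀ z ∈ T.ch x, D + 1 ≤ h + T.dep z := fun z hz => by rw [T.dep_ch hz]; omega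
  have tz : ∀ z ∈ T.ch x, (ty (cd T h z) = true ↔ z < x) := fun z hz => by
    obtain ⟨h, rfl⟩ : ∃ k, h = k + 1 := ⟨h - 1, by have := hD z; have := lev z hz; omega⟩
    rw [ty_cd_iff, (T.mem_ch.1 hz).2]
  rw [sum_lb_desc, Finset.sum_congr rfl fun f _ => sum_fq_upd T N J t u v k x τ hτ f]
  by_cases hh : hole (cd T (h + 1) x)
  · obtain ⟨c, hc, hc2⟩ := id hh
    rw [kd_cd] at hc
    obtain ⟨z, hz, rfl⟩ := Multiset.mem_map.1 hc
    have hz : z ∈ T.ch x := hz
    obtain ⟨z1, z2⟩ := T.mem_ch.1 hz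
    have tt : z < x ↔ x < T.p x := by rw [← tz z hz, hc2, ty_cd_iff]
    have e := hS x hx z hz tt
    have zτ : τ = true ↔ z < T.p z := by rw [z2, tt, hτ]
    rw [qq_hole J t u v N (z := cd T h z) (by rw [kd_cd, e]; rfl) hh, tτ,
      ← ih z hz z1 h (lev z hz) (k + 1) (by rw [T.dep_ch hz]; omega) τ zτ,
      ← sum_fg T N J D hD t u v z h (lev z hz) N le_rfl, Finset.mul_sum, ← Finset.sum_add_distrib]
    rw [e, singleton_biUnion]
    refine Finset.sum_congr rfl fun f _ => ?_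
    simp only [mem_singleton, forall_eq, exists_eq_left, prod_singleton, sum_singleton]
    rw [fg_eq, fq]
    by_cases a1 : OK T N f z
    · by_cases a2 : has T N f z
      · have a3 := (a1 z (self_desc T z)).1 a2
        rw [if_pos a1, if_pos a2, if_neg fun h => h.2 a2, if_pos ⟨a1, a2⟩, mul_zero, zero_add,
          om_succ, if_pos]
        split_ifs with a4
        · exact a3.1 (zτ.1 a4)
        · exact a3.2 fun h => a4 (zτ.2 h)
      · rw [if_pos a1, if_neg a2, if_pos ⟨a1, a2⟩, if_neg fun h => a2 h.2, EE_zero T N f z a2,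
          RR_sum]
        simp only [zero_add, zero_sub, add_zero]
        ring
    · rw [if_neg a1, if_neg fun h => a1 h.1, if_neg fun h => a1 h.1, mul_zero, add_zero]
  · have nt : ∀ z ∈ T.ch x, ((!τ) = true ↔ z < T.p z) := fun z hz => by
      have b1 : ty (cd T h z) ≠ τ := fun e =>
        hh ⟨cd T h z, by rw [kd_cd]; exact Multiset.mem_map_of_mem _ hz, e.trans tτ.symm⟩
      rw [(T.mem_ch.1 hz).2, ← tz z hz]
      revert b1
      cases ty (cd T h z) <;> cases τ <;> simp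
    have e : ∏ z ∈ T.ch x, GG J t u v N h (cd T h z) =
        ∏ z ∈ T.ch x, ∑ y ∈ lb (N + 1 + J) (T.desc z), fG T N J t u v (!τ) z y := by
      refine Finset.prod_congr rfl fun z hz => ?_
      rw [GG, ← ih z hz (T.mem_ch.1 hz).1 h (lev z hz) 0 (Nat.zero_le _) _ (nt z hz),
        ← sum_fg T N J D hD t u v z h (lev z hz) N le_rfl, ← Finset.sum_add_distrib]
      rfl
    rw [qq_true J t u v N hh, tτ, kd_cd, prod_cd, e,
      ← sum_lb_biUnion _ _ _ (disj_ch T x) _ (fun z _ => fG_dep T N J t u v _ z), Finset.mul_sum]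
    refine Finset.sum_congr rfl fun f _ => ?_
    cases τ
    · have hx2 : ∀ z ∈ T.ch x, z < T.p z := fun z hz => (nt z hz).1 rfl
      rw [Bool.not_false, prod_fG_true T N J t u v x hx2]
      by_cases a1 : ∀ z ∈ T.ch x, OK T N f z
      · have a2 : 0 ≤ ∑ z ∈ T.ch x, EE T N f z :=
          Finset.sum_nonneg fun z hz => (cond_of_OK T N (a1 z hz)).1 (hx2 z hz)
        rw [if_pos a1, if_pos a1, om_fpos _ _ _ _ _ _ a2, mul_zero, ite_self, zero_add, RR_sum,
          Finset.sum_eq_zero fun (j : ℕ) _ => om_fpos J (SS t N) u v k (_ + j) (by omega),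
          Finset.sum_eq_zero fun (j : ℕ) _ => om_fpos J (SS t N) u v k j (by omega)]
        split_ifs with a3
        · rw [a3, zero_sub]; ring
        · rw [om_fpos _ _ _ _ _ _ (by omega)]; ring
      · rw [if_neg a1, if_neg a1, mul_zero]
    · have hx2 : ∀ z ∈ T.ch x, ¬ z < T.p z := fun z hz h => Bool.false_ne_true ((nt z hz).2 h)
      rw [Bool.not_true, prod_fG_false T N J t u v x hx2]
      by_cases a1 : ∀ z ∈ T.ch x, OK T N f z
      · obtain ⟨m, m1, m2, m3⟩ := sum_EE_neg T N x hx2 f a1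
        rw [if_pos a1, if_pos a1, m2, shift_sum J _ u v k m (by omega), RR_sum,
          om_tneg J _ u v k (-(m : ℤ) - 1) (by omega), om_tneg J _ u v k (-1) le_rfl]
        split_ifs with a3
        · rw [om_tneg J _ u v k (-(m : ℤ)) (by have := m3.1 a3; omega)]; ring
        · ring
      · rw [if_neg a1, if_neg a1, mul_zero]

open Classical in
lemma Th_lb (T : RT α) (N n J : ℕ) (hn : Fintype.card α ≤ n)
    (hc : ∀ y : α → ℕ, Valid N n 0 y → N ≤ y T.r) (t : ℕ → R) (u v : R) : Th α N n J t u v =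
    ∑ f ∈ lb (N + 1 + J) ((T.ch T.r).biUnion T.desc), if ∀ z ∈ T.ch T.r, OK T N f z then
      (∏ z ∈ T.ch T.r, Wt T (wt N t u v) f z) *
      (v * (if ∑ z ∈ T.ch T.r, EE T N f z - 1 = -1 then 1 else 0) +
        u * ∑ j ∈ range J, if ∑ z ∈ T.ch T.r, EE T N f z + j = -1 then 1 else 0) else 0 := by
  have e1 : Th α N n J t u v = ∑ y ∈ lb (N + 1 + J) (T.desc T.r),
      if (∀ z ∈ T.ch T.r, OK T N y z) ∧ (N ≤ y T.r ∨ False) then
        Wt T (wt N t u v) y T.r * (if EE T N y T.r = -1 then 1 else 0) else 0 := by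
    rw [Th_def]
    refine Finset.sum_nbij' (fun y a => (y a : ℕ)) (fun f a => ⟨min (f a) N + min (f a - N) J, by omega⟩)
      ?_ ?_ ?_ ?_ ?_
    · intro y _
      rw [T.desc_root]
      exact mem_lb.2 ⟨fun a _ => (y a).2, fun a ha => absurd (mem_univ a) ha⟩
    · intro f _
      exact mem_univ _
    · intro y _
      funext a
      apply Fin.ext
      have := (y a).2
      simp only
      omega
    · intro f hf
      funext a
      have := (mem_lb.1 hf).1 a (by rw [T.desc_root]; exact mem_univ a)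
      simp only
      omega
    · intro y _
      have e2 : Wt T (wt N t u v) (fun a => (y a : ℕ)) T.r = ∏ a, wt N t u v (y a) := by
        rw [Wt, T.desc_root]
      rw [e2]
      generalize (∏ a, wt N t u v (y a)) = W
      generalize (fun a => (y a : ℕ)) = f
      have e3 : (∀ x, x ≠ T.r → Cond T N f x) ↔ ∀ z ∈ T.ch T.r, OK T N f z := by
        constructor
        · intro h z hz x hx
          exact h x fun e => T.not_anc_root (T.mem_ch.1 hz).1 (e ▸ T.mem_desc.1 hx)
        · intro h x hx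
          obtain ⟨z, hz, h1⟩ := T.exists_ch (T.anc_root x) hx.symm
          exact h z hz x (T.mem_desc.2 h1)
      by_cases hV : Valid N n 0 f
      · have h1 := hc f hV
        have h2 := (valid_iff_cond T N n hn f h1).1 hV
        rw [if_pos hV, if_pos ⟨e3.1 h2.2, Or.inl h1⟩, if_pos h2.1, mul_one]
      · rw [if_neg hV]
        split_ifs with a1 a2
        · exact absurd ((valid_iff_cond T N n hn f (a1.2.resolve_right id)).2 ⟨a2, e3.2 a1.1⟩) hV
        · rw [mul_zero]
        · rfl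
  rw [e1, sum_lb_desc]
  refine Finset.sum_congr rfl fun f _ => ?_
  have e := sum_upd T N J t u v (fun e => if e = -1 then 1 else 0) T.r f False
  rw [if_neg (c := False) id, zero_add] at e
  rw [← e]
  refine Finset.sum_congr rfl fun j _ => ?_
  rw [Function.update_self]

lemma prod_GG (T : RT α) (N J D : ℕ) (hD : ∀ x, T.dep x ≤ D) (hJ : D + Fintype.card α < J)
    (hS : ∀ x, x ≠ T.r → ∀ z ∈ T.ch x, (z < x ↔ x < T.p x) → T.ch x = {z}) (t : ℕ → R) (u v : R)
    (σ : Bool) (hσ : ∀ z ∈ T.ch T.r, (σ = true ↔ z < T.p z)) :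
    (((T.ch T.r).val.map (cd T D)).map (GG J t u v N D)).prod =
      ∑ f ∈ lb (N + 1 + J) ((T.ch T.r).biUnion T.desc), ∏ z ∈ T.ch T.r, fG T N J t u v σ z f := by
  rw [prod_cd, sum_lb_biUnion _ _ _ (disj_ch T T.r) _ (fun z _ => fG_dep T N J t u v _ z)]
  refine Finset.prod_congr rfl fun z hz => ?_
  have lev : D + 1 ≤ D + T.dep z := by rw [T.dep_ch hz]; omega
  rw [GG, ← sum_fq T N J D hD hJ hS t u v z (T.mem_ch.1 hz).1 D lev 0 (Nat.zero_le _) _ (hσ z hz),
    ← sum_fg T N J D hD t u v z D lev N le_rfl, ← Finset.sum_add_distrib]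
  rfl

theorem Th_sink (T : RT α) (N n J D : ℕ) (hn : Fintype.card α ≤ n) (hD : ∀ x, T.dep x ≤ D)
    (hJ : D + Fintype.card α < J)
    (hS : ∀ x, x ≠ T.r → ∀ z ∈ T.ch x, (z < x ↔ x < T.p x) → T.ch x = {z})
    (hc : ∀ y : α → ℕ, Valid N n 0 y → N ≤ y T.r) (hx : ∀ z ∈ T.ch T.r, z < T.p z)
    (t : ℕ → R) (u v : R) :
    Th α N n J t u v = v * (((T.ch T.r).val.map (cd T D)).map (GG J t u v N D)).prod := by
  classical
  rw [Th_lb T N n J hn hc, prod_GG T N J D hD hJ hS t u v true (fun z hz => by simp [hx z hz]),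
    Finset.mul_sum]
  refine Finset.sum_congr rfl fun f _ => ?_
  rw [prod_fG_true T N J t u v _ hx]
  by_cases a1 : ∀ z ∈ T.ch T.r, OK T N f z
  · have a2 : 0 ≤ ∑ z ∈ T.ch T.r, EE T N f z :=
      Finset.sum_nonneg fun z hz => (cond_of_OK T N (a1 z hz)).1 (hx z hz)
    rw [if_pos a1, if_pos a1, Finset.sum_eq_zero (s := range J) fun j _ => if_neg (by omega)]
    by_cases a3 : ∑ z ∈ T.ch T.r, EE T N f z = 0
    · rw [if_pos a3, if_pos (by omega)]; ring
    · rw [if_neg a3, if_neg (by omega)]; ring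
  · rw [if_neg a1, if_neg a1, mul_zero]

theorem Th_source (T : RT α) (N n J D : ℕ) (hn : Fintype.card α ≤ n) (hD : ∀ x, T.dep x ≤ D)
    (hJ : D + Fintype.card α < J)
    (hS : ∀ x, x ≠ T.r → ∀ z ∈ T.ch x, (z < x ↔ x < T.p x) → T.ch x = {z})
    (hc : ∀ y : α → ℕ, Valid N n 0 y → N ≤ y T.r) (hx : ∀ z ∈ T.ch T.r, ¬ z < T.p z)
    (t : ℕ → R) (u v : R) :
    Th α N n J t u v = u * (((T.ch T.r).val.map (cd T D)).map (GG J t u v N D)).prod +
      (v - u) * (((T.ch T.r).val.map (cd T D)).map fun z => gg t D z N).prod := by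
  classical
  have e : (((T.ch T.r).val.map (cd T D)).map fun z => gg t D z N).prod =
      ∑ f ∈ lb (N + 1 + J) ((T.ch T.r).biUnion T.desc),
        ∏ z ∈ T.ch T.r, fg T N (wt N t u v) N z f := by
    rw [prod_cd, sum_lb_biUnion _ _ _ (disj_ch T T.r) _ (fun z _ => fg_dep T N _ N z)]
    refine Finset.prod_congr rfl fun z hz => ?_
    rw [sum_fg T N J D hD t u v z D (by rw [T.dep_ch hz]; omega) N le_rfl]
  rw [Th_lb T N n J hn hc, prod_GG T N J D hD hJ hS t u v false (fun z hz => by simp [hx z hz]), e,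
    Finset.mul_sum, Finset.mul_sum, ← Finset.sum_add_distrib]
  refine Finset.sum_congr rfl fun f _ => ?_
  rw [prod_fG_false T N J t u v _ hx]
  simp only [fg_eq]
  rw [Finset.prod_ite_zero]
  by_cases a1 : ∀ z ∈ T.ch T.r, OK T N f z
  · obtain ⟨m, m1, m2, m3⟩ := sum_EE_neg T N T.r hx f a1
    rw [if_pos a1, if_pos a1, m2]
    rcases Nat.eq_zero_or_pos m with m0 | m0
    · rw [if_pos (by omega), Finset.sum_eq_zero (s := range J) fun j _ => if_neg (by omega),
        if_pos fun z hz => ⟨a1 z hz, fun h => by have := m3.1 ⟨z, hz, h⟩; omega⟩]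
      ring
    · obtain ⟨z, hz, h⟩ := m3.2 m0
      rw [if_neg (by omega), Finset.sum_eq_single (m - 1) (fun j _ hj => if_neg (by omega))
        (fun h => absurd (mem_range.2 (by omega)) h), if_pos (by omega),
        if_neg fun h1 => (h1 z hz).2 h]
      ring
  · rw [if_neg a1, if_neg a1, if_neg fun h => a1 fun z hz => (h z hz).1]
    ring

end Pool.Agent.Work.MP_be9894_co.Sb
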