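import Pool.Agent.Work.MP_be9894_co.Sb.Alg1

set_option autoImplicit false
set_option linter.unusedSectionVars false

namespace Pool.Agent.Work.MP_be9894_co.Sb

open Finset
open Pool.Agent.Work.MP_be9894_co.H2 (RT exc blk Valid exc_ge)

section lab

variable {α : Type} [Fintype α] [DecidableEq α] {R : Type} [CommRing R]

def lb (K : ℕ) (A : Finset α) : Finset (α → ℕ) :=
  Fintype.piFinset fun a => if a ∈ A then range K else {0}

lemma mem_lb {K : ℕ} {A : Finset α} {f : α → ℕ} :
    f ∈ lb K A ↔ (∀ a ∈ A, f a < K) ∧ ∀ a, a ∉ A → f a = 0 := by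
  simp only [lb, Fintype.mem_piFinset]
  constructor
  · intro h
    refine ⟨fun a ha => ?_, fun a ha => ?_⟩
    · have := h a; rwa [if_pos ha, mem_range] at this
    · have := h a; rwa [if_neg ha, mem_singleton] at this
  · rintro ⟨h1, h2⟩ a
    split_ifs with ha
    · exact mem_range.2 (h1 a ha)
    · exact mem_singleton.2 (h2 a ha)

lemma sum_lb_insert (K : ℕ) (A : Finset α) (x : α) (hx : x ∉ A) (F : (α → ℕ) → R) :
    ∑ f ∈ lb K (insert x A), F f = ∑ f ∈ lb K A, ∑ j ∈ range K, F (Function.update f x j) := by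
  rw [← Finset.sum_product']
  symm
  refine Finset.sum_nbij' (fun q => Function.update q.1 x q.2) (fun g => (Function.update g x 0, g x))
    ?_ ?_ ?_ ?_ (fun _ _ => rfl)
  · rintro ⟨f, j⟩ hq
    obtain ⟨h1, h2⟩ := mem_product.1 hq
    obtain ⟨a2, a3⟩ := mem_lb.1 h1
    refine mem_lb.2 ⟨fun y b2 => ?_, fun y b2 => ?_⟩
    · by_cases e : y = x
      · rw [e, Function.update_self]; exact mem_range.1 h2
      · rw [Function.update_of_ne e]; exact a2 y ((mem_insert.1 b2).resolve_left e)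
    · rw [mem_insert, not_or] at b2
      rw [Function.update_of_ne b2.1]; exact a3 y b2.2
  · intro g hg
    obtain ⟨a2, a3⟩ := mem_lb.1 hg
    refine mem_product.2 ⟨mem_lb.2 ⟨fun y b2 => ?_, fun y b2 => ?_⟩, ?_⟩
    · show Function.update g x 0 y < K
      rw [Function.update_of_ne (fun e : y = x => hx (e ▸ b2))]; exact a2 y (mem_insert_of_mem b2)
    · show Function.update g x 0 y = 0
      by_cases e : y = x
      · rw [e, Function.update_self]
      · rw [Function.update_of_ne e]; exact a3 y (fun h => b2 ((mem_insert.1 h).resolve_left e))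
    · exact mem_range.2 (a2 x (mem_insert_self _ _))
  · rintro ⟨f, j⟩ hq
    obtain ⟨h1, _⟩ := mem_product.1 hq
    have a3 := (mem_lb.1 h1).2 x hx
    simp only [Function.update_idem, Function.update_self, Prod.mk.injEq, and_true]
    rw [← a3, Function.update_eq_self]
  · intro g _
    simp

lemma lb_empty (K : ℕ) : lb K (∅ : Finset α) = {fun _ => 0} := by
  ext f
  rw [mem_lb, mem_singleton]
  exact ⟨fun h => funext fun a => h.2 a (notMem_empty a),
    fun h => ⟨fun a ha => absurd ha (notMem_empty a), fun a _ => by rw [h]⟩⟩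

def Dep (F : (α → ℕ) → R) (A : Finset α) : Prop := ∀ f g, (∀ a ∈ A, f a = g a) → F f = F g

lemma Dep.upd {F : (α → ℕ) → R} {A : Finset α} (h : Dep F A) {x : α} (hx : x ∉ A) (f : α → ℕ)
    (j : ℕ) : F (Function.update f x j) = F f :=
  h _ _ fun a ha => Function.update_of_ne (fun e : a = x => hx (e ▸ ha)) _ _

lemma sum_lb_union (K : ℕ) (A B : Finset α) (hd : Disjoint A B) (F G : (α → ℕ) → R) (hF : Dep F A)
    (hG : Dep G B) : ∑ f ∈ lb K (A ∪ B), F f * G f = (∑ f ∈ lb K A, F f) * ∑ f ∈ lb K B, G f := by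
  induction A using Finset.induction_on generalizing F with
  | empty =>
    rw [empty_union, lb_empty, sum_singleton, Finset.mul_sum]
    exact Finset.sum_congr rfl fun f _ => by rw [hF f _ fun a ha => absurd ha (notMem_empty a)]
  | insert a A ha ih =>
    rw [disjoint_insert_left] at hd
    rw [insert_union, sum_lb_insert K _ a (by rw [mem_union, not_or]; exact ⟨ha, hd.1⟩),
      sum_lb_insert K _ a ha, ← ih hd.2 (fun f => ∑ j ∈ range K, F (Function.update f a j))]
    · refine Finset.sum_congr rfl fun f _ => ?_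
      rw [Finset.sum_mul]
      exact Finset.sum_congr rfl fun j _ => by rw [hG.upd hd.1]
    · intro f g h
      refine Finset.sum_congr rfl fun j _ => hF _ _ fun b hb => ?_
      by_cases e : b = a
      · rw [e, Function.update_self, Function.update_self]
      · rw [Function.update_of_ne e, Function.update_of_ne e]
        exact h b ((mem_insert.1 hb).resolve_left e)

lemma sum_lb_biUnion (K : ℕ) (s : Finset α) (A : α → Finset α)
    (hd : ∀ i ∈ s, ∀ j ∈ s, i ≠ j → Disjoint (A i) (A j)) (F : α → (α → ℕ) → R)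
    (hF : ∀ i ∈ s, Dep (F i) (A i)) :
    ∑ f ∈ lb K (s.biUnion A), ∏ i ∈ s, F i f = ∏ i ∈ s, ∑ f ∈ lb K (A i), F i f := by
  induction s using Finset.induction_on with
  | empty => simp [lb_empty]
  | insert a s ha ih =>
    rw [biUnion_insert, prod_insert ha, ← ih
      (fun i hi j hj => hd i (mem_insert_of_mem hi) j (mem_insert_of_mem hj))
      (fun i hi => hF i (mem_insert_of_mem hi)), ← sum_lb_union K _ _ ?_ _ _
      (hF a (mem_insert_self _ _)) ?_]
    · exact Finset.sum_congr rfl fun f _ => prod_insert ha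
    · exact (disjoint_biUnion_right _ _ _).2 fun i hi =>
        hd a (mem_insert_self _ _) i (mem_insert_of_mem hi) (fun e => ha (e ▸ hi))
    · intro f g h
      exact Finset.prod_congr rfl fun i hi => hF i (mem_insert_of_mem hi) f g fun b hb =>
        h b (mem_biUnion.2 ⟨i, hi, hb⟩)

end lab

variable {α : Type} [Fintype α] [PartialOrder α] [DecidableEq α] {R : Type} [CommRing R]

lemma not_mem_desc_ch (T : RT α) {x z : α} (hz : z ∈ T.ch x) : x ∉ T.desc z := by
  intro h
  have h1 := T.anc_dep (T.mem_desc.1 h)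
  have h2 := T.dep_ch hz
  omega

lemma desc_sub (T : RT α) {x z : α} (hz : z ∈ T.desc x) : T.desc z ⊆ T.desc x := fun _ hu =>
  T.mem_desc.2 (T.anc_trans (T.mem_desc.1 hz) (T.mem_desc.1 hu))

lemma ch_desc (T : RT α) {x z : α} (hz : z ∈ T.ch x) : z ∈ T.desc x :=
  T.mem_desc.2 ((T.mem_ch.1 hz).2 ▸ T.anc_p z)

lemma self_desc (T : RT α) (x : α) : x ∈ T.desc x := T.mem_desc.2 (T.anc_refl x)

lemma desc_eq (T : RT α) (x : α) : T.desc x = insert x ((T.ch x).biUnion T.desc) := by
  ext u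
  rw [mem_insert, mem_biUnion]
  constructor
  · intro h
    by_cases e : u = x
    · exact Or.inl e
    · obtain ⟨z, hz, h1⟩ := T.exists_ch (T.mem_desc.1 h) (Ne.symm e)
      exact Or.inr ⟨z, hz, T.mem_desc.2 h1⟩
  · rintro (rfl | ⟨z, hz, h⟩)
    · exact self_desc T u
    · exact desc_sub T (ch_desc T hz) h

lemma not_mem_bi (T : RT α) (x : α) : x ∉ (T.ch x).biUnion T.desc := fun h => by
  obtain ⟨z, hz, h1⟩ := mem_biUnion.1 h
  exact not_mem_desc_ch T hz h1

lemma disj_ch (T : RT α) (x : α) : ∀ i ∈ T.ch x, ∀ j ∈ T.ch x, i ≠ j →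
    Disjoint (T.desc i) (T.desc j) := by
  intro z hz z' hz' hne
  refine Finset.disjoint_left.2 fun u h1 h2 => hne ?_
  have a1 := T.dep_ch hz
  have a2 := T.dep_ch hz'
  rcases T.anc_total (T.mem_desc.1 h1) (T.mem_desc.1 h2) with h | h
  · exact T.anc_eq h (by omega)
  · exact (T.anc_eq h (by omega)).symm

lemma forall_desc (T : RT α) (x : α) (P : α → Prop) :
    (∀ u ∈ T.desc x, P u) ↔ P x ∧ ∀ z ∈ T.ch x, ∀ u ∈ T.desc z, P u := by
  constructor
  · intro h
    exact ⟨h x (self_desc T x), fun z hz u hu => h u (desc_sub T (ch_desc T hz) hu)⟩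
  · rintro ⟨h1, h2⟩ u hu
    rw [desc_eq, mem_insert, mem_biUnion] at hu
    rcases hu with rfl | ⟨z, hz, h⟩
    · exact h1
    · exact h2 z hz u h

lemma sum_lb_desc (T : RT α) (K : ℕ) (x : α) (F : (α → ℕ) → R) :
    ∑ f ∈ lb K (T.desc x), F f =
      ∑ f ∈ lb K ((T.ch x).biUnion T.desc), ∑ j ∈ range K, F (Function.update f x j) := by
  rw [desc_eq T x, sum_lb_insert K _ x (not_mem_bi T x)]

def OK (T : RT α) (N : ℕ) (y : α → ℕ) (x : α) : Prop := ∀ u ∈ T.desc x, Cond T N y u

noncomputable def Wt (T : RT α) (w : ℕ → R) (y : α → ℕ) (x : α) : R := ∏ a ∈ T.desc x, w (y a)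

lemma Wt_rec (T : RT α) (w : ℕ → R) (y : α → ℕ) (x : α) :
    Wt T w y x = w (y x) * ∏ z ∈ T.ch x, Wt T w y z := by
  unfold Wt
  rw [desc_eq T x, prod_insert (not_mem_bi T x), prod_biUnion]
  exact fun i hi j hj hne => disj_ch T x i hi j hj hne

lemma EE_rec (T : RT α) (N : ℕ) (y : α → ℕ) (x : α) :
    EE T N y x = exc N (y x) + ∑ z ∈ T.ch x, EE T N y z := T.sum_desc _ x

lemma not_has (T : RT α) (N : ℕ) (y : α → ℕ) (x : α) :
    ¬ has T N y x ↔ ∀ u ∈ T.desc x, y u < N := by
  unfold has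
  push Not
  rfl

lemma has_rec (T : RT α) (N : ℕ) (y : α → ℕ) (x : α) :
    has T N y x ↔ N ≤ y x ∨ ∃ z ∈ T.ch x, has T N y z := by
  rw [← not_iff_not, not_has, forall_desc, not_or, not_le, not_exists]
  simp only [not_and, not_has]

lemma OK_rec (T : RT α) (N : ℕ) (y : α → ℕ) (x : α) :
    OK T N y x ↔ Cond T N y x ∧ ∀ z ∈ T.ch x, OK T N y z := forall_desc T x _

lemma EE_zero (T : RT α) (N : ℕ) (y : α → ℕ) (x : α) (h : ¬ has T N y x) : EE T N y x = 0 :=
  Finset.sum_eq_zero fun u hu => by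
    unfold exc
    rw [if_neg (not_le.2 ((not_has T N y x).1 h u hu))]

lemma EE_ge (T : RT α) (N : ℕ) (y : α → ℕ) (x : α) : -((T.desc x).card : ℤ) ≤ EE T N y x := by
  have := Finset.card_nsmul_le_sum (T.desc x) (fun u => exc N (y u)) (-1) fun u _ => exc_ge N (y u)
  rw [nsmul_eq_mul, mul_neg, mul_one] at this
  exact this

lemma has_congr (T : RT α) (N : ℕ) {f g : α → ℕ} {x : α} (h : ∀ a ∈ T.desc x, f a = g a) :
    has T N f x ↔ has T N g x :=
  ⟨fun ⟨u, hu, h1⟩ => ⟨u, hu, h u hu ▸ h1⟩, fun ⟨u, hu, h1⟩ => ⟨u, hu, (h u hu).symm ▸ h1⟩⟩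

lemma EE_congr (T : RT α) (N : ℕ) {f g : α → ℕ} {x : α} (h : ∀ a ∈ T.desc x, f a = g a) :
    EE T N f x = EE T N g x := Finset.sum_congr rfl fun a ha => by rw [h a ha]

lemma Wt_congr (T : RT α) (w : ℕ → R) {f g : α → ℕ} {x : α} (h : ∀ a ∈ T.desc x, f a = g a) :
    Wt T w f x = Wt T w g x := Finset.prod_congr rfl fun a ha => by rw [h a ha]

lemma OK_congr (T : RT α) (N : ℕ) {f g : α → ℕ} {x : α} (h : ∀ a ∈ T.desc x, f a = g a) :
    OK T N f x ↔ OK T N g x := by
  refine forall₂_congr fun u hu => ?_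
  have h1 : ∀ a ∈ T.desc u, f a = g a := fun a ha => h a (desc_sub T hu ha)
  unfold Cond
  rw [has_congr T N h1, EE_congr T N h1, Finset.sup_congr rfl h1]

lemma upd_ch (T : RT α) {x z : α} (hz : z ∈ T.ch x) (f : α → ℕ) (j : ℕ) :
    ∀ a ∈ T.desc z, Function.update f x j a = f a := fun a ha =>
  Function.update_of_ne (fun e : a = x => not_mem_desc_ch T hz (e ▸ ha)) _ _

lemma sum_wt (N J : ℕ) (t : ℕ → R) (u v : R) (φ : ℤ → R) (P : Prop) [Decidable P] :
    ∑ j ∈ range (N + 1 + J), (if N ≤ j ∨ P then wt N t u v j * φ (exc N j) else 0) =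
      (if P then SS t N * φ 0 else 0) + v * φ (-1) + u * ∑ j ∈ range J, φ j := by
  rw [Finset.sum_range_add, Finset.sum_range_succ, Finset.mul_sum]
  congr 2
  · unfold SS
    split_ifs with h
    · rw [Finset.sum_mul]
      refine Finset.sum_congr rfl fun j hj => ?_
      have := mem_range.1 hj
      rw [if_pos (Or.inr h), wt, if_pos this, exc, if_neg (by omega)]
    · refine Finset.sum_eq_zero fun j hj => ?_
      have := mem_range.1 hj
      rw [if_neg (by rintro (h1 | h1); omega; exact h h1)]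
  · rw [if_pos (Or.inl le_rfl), wt, if_neg (lt_irrefl N), if_pos rfl, exc, if_pos le_rfl]
    congr 2
    omega
  · funext j
    rw [if_pos (Or.inl (by omega)), wt, if_neg (by omega), if_neg (by omega), exc, if_pos (by omega)]
    congr 2
    push_cast
    ring

lemma RR_sum (J : ℕ) (lam u v : R) (τ : Bool) (k : ℕ) : RR J lam u v τ k =
    v * om J lam u v τ k (-1) + u * ∑ j ∈ range J, om J lam u v τ k j := by
  unfold RR rho
  cases τ
  · rw [if_neg Bool.false_ne_true, if_neg Bool.false_ne_true,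
      Finset.sum_eq_zero fun (j : ℕ) _ => om_fpos J lam u v k j (by omega), mul_zero, add_zero]
  · rw [if_pos rfl, if_pos rfl, om_tneg _ _ _ _ _ _ le_rfl, mul_zero, zero_add]

lemma shift_sum (J : ℕ) (lam u v : R) (k m : ℕ) (h : k + m < J) :
    ∑ j ∈ range J, om J lam u v true k (-(m : ℤ) + j) = ∑ j ∈ range J, om J lam u v true k j := by
  obtain ⟨I, hI⟩ : ∃ I, J = m + I := ⟨J - m, by omega⟩
  generalize hf : om J lam u v true k = f
  have f1 : ∀ e, e ≤ -1 → f e = 0 := fun e he => hf ▸ om_tneg _ _ _ _ _ _ he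
  have f2 : ∀ e, (k : ℤ) < e → f e = 0 := fun e he => hf ▸ om_big _ _ _ _ _ _ he
  have e1 : ∑ j ∈ range (m + I), f (-(m : ℤ) + j) = ∑ j ∈ range I, f j := by
    rw [Finset.sum_range_add, Finset.sum_eq_zero fun j hj => f1 _ (by
      have := mem_range.1 hj; omega), zero_add]
    refine Finset.sum_congr rfl fun j _ => ?_
    congr 1
    push_cast
    ring
  have e2 : ∑ j ∈ range (I + m), f j = ∑ j ∈ range I, f j := by
    rw [Finset.sum_range_add, Finset.sum_eq_zero (s := range m) fun j _ => f2 _ (by omega), add_zero]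
  rw [hI, e1, add_comm m I, e2]

end Pool.Agent.Work.MP_be9894_co.Sb
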