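import Pool.Agent.Work.MP_be9894_co.Sb.PinA

set_option autoImplicit false
set_option linter.unusedSectionVars false

namespace Pool.Agent.Work.MP_be9894_co.Sb

open Finset Pool.Agent.Work.MP_be9894_co.H2

variable {α : Type} [Fintype α] [PartialOrder α] [DecidableEq α]

lemma pin_low {N : ℕ} {w : α} (hw : VN N w)
    (h : ∀ z, (z ⋖ w ∨ w ⋖ z) → ¬ (z < w ↔ N % 2 = 1)) : VN (N - 1) w := by
  intro z hz
  have h1 := h z hz
  rcases hw z hz with ⟨_, _, k, _, k1, k2, k3⟩
  refine AD.mk w z k _ ?_ k2 k3
  by_contra k4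
  have k5 : k + 1 = N := by omega
  exact h1 (k2.trans (by omega))

lemma pin_move {N : ℕ} {w x x' : α} (hw : VN N w) (hx : x ⋖ w ∨ w ⋖ x) (hx' : x' ⋖ w ∨ w ⋖ x')
    (hall : ∀ z, (z ⋖ w ∨ w ⋖ z) → z ≠ x' → z = x) (ho : w < x' ↔ x < w) : VN N x' := by
  intro z hz
  by_cases e : z = w
  · subst e
    rcases hw x hx with ⟨_, _, k, _, k1, k2, k3⟩
    refine AD.mk x' z k N k1 (ho.trans k2) fun u hu hne => ?_
    rw [hall u hu hne]
    exact AD.mk z x k _ (Nat.lt_succ_self k) k2 k3
  · rcases hw x' hx' with ⟨_, _, k, _, k1, _, k3⟩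
    exact (k3 z hz e).mono k1

lemma pin_two (J : Jm α) (M : Mm α) {w a b : α} (ha : a ⋖ w) (hb : w ⋖ b) (z : α)
    (hz : z ⋖ w ∨ w ⋖ z) : z = a ∨ z = b := by
  rcases hz with h | h
  · exact Or.inl (by_contra fun e => J z a w b h ha e hb.lt)
  · exact Or.inr (by_contra fun e => M z b w a h hb e ha.lt)

lemma pin_EE (T : RT α) (N : ℕ) (y : α → ℕ) (z : α) (h : ¬ has T N y z) : EE T N y z = 0 :=
  Finset.sum_eq_zero fun u hu => if_neg fun h1 => h ⟨u, hu, h1⟩

/-- Take a counterexample (w, x) with w extremal: for N even (x < w) with the most elements below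
w, for N odd (w < x) with the most elements above w. If all neighbours of w are on the same side as
x, then VN (N-1) w (the index k of AD w z N cannot be N-1). Otherwise, by J and M, w has exactly the
two neighbours x and x' on opposite sides; then VN N x' (AD x' w N with the index k of AD w x N),
and (x', w) is a better counterexample. -/
lemma claim (J : Jm α) (M : Mm α) (N : ℕ) (hmin : ∀ N', N' < N → ∀ r : α, ¬ VN N' r) (w : α)
    (hw : VN N w) : ∀ x, (x ⋖ w ∨ w ⋖ x) → (x < w ↔ N % 2 = 1) := by
  have pos : ∀ w x : α, VN N w → (x ⋖ w ∨ w ⋖ x) → N - 1 < N := fun w x hw hx => by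
    rcases hw x hx with ⟨_, _, k, _, k1, _, _⟩
    omega
  rcases Nat.mod_two_eq_zero_or_one N with hN | hN
  · have key : ∀ w : α, VN N w → ∀ x, ¬ x ⋖ w := by
      intro w
      induction w using WellFoundedGT.induction with
      | ind w ih =>
        intro hw x hx
        by_cases e : ∃ b, w ⋖ b
        · obtain ⟨b, hb⟩ := e
          exact ih b hb.lt (pin_move hw (Or.inl hx) (Or.inr hb)
            (fun z hz hne => (pin_two J M hx hb z hz).resolve_right hne)
            (iff_of_true hb.lt hx.lt)) w hb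
        · refine hmin _ (pos w x hw (Or.inl hx)) w (pin_low hw fun z hz h1 => ?_)
          have := h1.1 (hz.resolve_right fun h2 => e ⟨z, h2⟩).lt
          omega
    intro x hx
    refine iff_of_false (fun h1 => ?_) (by omega)
    exact key w hw x (hx.resolve_right fun h2 => lt_asymm h1 h2.lt)
  · have key : ∀ w : α, VN N w → ∀ x, ¬ w ⋖ x := by
      intro w
      induction w using WellFoundedLT.induction with
      | ind w ih =>
        intro hw x hx
        by_cases e : ∃ a, a ⋖ w
        · obtain ⟨a, ha⟩ := e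
          exact ih a ha.lt (pin_move hw (Or.inr hx) (Or.inl ha)
            (fun z hz hne => (pin_two J M ha hx z hz).resolve_left hne)
            (iff_of_false (lt_asymm ha.lt) (lt_asymm hx.lt))) w ha
        · refine hmin _ (pos w x hw (Or.inr hx)) w (pin_low hw fun z hz h1 => ?_)
          exact lt_asymm (h1.2 hN) (hz.resolve_left fun h2 => e ⟨z, h2⟩).lt
    intro x hx
    exact iff_of_true (hx.resolve_right (key w hw x)).lt hN

/-- Root T at a block vertex (exists_block), suppose y c < N, p = T.p c. By claim all neighbours of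
c lie on one side. If c has no block below: AD p c N by AD_of_cond, so VN N p (the other neighbours
of p from AD c p N), and claim at p contradicts claim at c. If it has: EE c = sum of EE over the
children (sum_desc, exc = 0), whose types are opposite to the type of c, EE z = 0 without block:
contradiction with Cond. -/
lemma pin (hT : (SimpleGraph.hasse α).IsTree) (J : Jm α) (M : Mm α) (N n : ℕ)
    (hn : Fintype.card α ≤ n) (hmin : ∀ N', N' < N → ∀ r : α, ¬ VN N' r) (c : α) (hc : VN N c) :
    Cen N n c := by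
  have cl := claim J M N hmin c hc
  refine ⟨hc, cl, fun y hV => ?_⟩
  by_contra hy
  obtain ⟨r, hr⟩ := exists_block hV
  obtain ⟨T, rfl, -⟩ := exists_RT α hT r
  have hcr : c ≠ T.r := fun e => hy (e ▸ hr)
  have hC := ((valid_iff_cond T N n hn y hr).1 hV).2
  have hadj := T.adj c hcr
  have c1 := cl (T.p c) hadj.symm
  by_cases hh : has T N y c
  · have e : EE T N y c = ∑ z ∈ T.ch c, EE T N y z := by
      have e0 : exc N (y c) = 0 := if_neg hy
      unfold EE
      rw [T.sum_desc (fun u => exc N (y u)) c, e0, zero_add]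
    have c2 : ∀ z ∈ T.ch c, z ≠ T.r ∧ (z < T.p z ↔ T.p c < c) := fun z hz => by
      obtain ⟨z1, z2⟩ := T.mem_ch.1 hz
      have := T.adj z z1
      rw [z2] at this ⊢
      exact ⟨z1, (cl z this).trans c1.symm⟩
    by_cases ht : c < T.p c
    · have h0 := ((hC c hcr).1 hh).1 ht
      obtain ⟨u, hu, hu2⟩ := hh
      obtain ⟨z, hz, hzu⟩ := T.exists_ch (T.mem_desc.1 hu) fun e1 => hy (e1 ▸ hu2)
      have h1 : ∀ z ∈ T.ch c, has T N y z → EE T N y z ≤ -1 := fun z hz h2 =>
        ((hC z (c2 z hz).1).1 h2).2 fun h3 => lt_asymm ht ((c2 z hz).2.1 h3)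
      have h2 : ∑ z ∈ T.ch c, EE T N y z < ∑ _z ∈ T.ch c, (0 : ℤ) := by
        refine Finset.sum_lt_sum (fun z hz => ?_) ⟨z, hz, ?_⟩
        · by_cases h3 : has T N y z
          · have := h1 z hz h3
            omega
          · exact (pin_EE T N y z h3).le
        · have := h1 z hz ⟨u, T.mem_desc.2 hzu, hu2⟩
          omega
      rw [Finset.sum_const_zero, ← e] at h2
      omega
    · have h0 := ((hC c hcr).1 hh).2 ht
      have h1 : T.p c < c := ((not_lt_p_iff T hcr).1 ht).lt
      have h2 : 0 ≤ ∑ z ∈ T.ch c, EE T N y z := Finset.sum_nonneg fun z hz => by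
        by_cases h3 : has T N y z
        · exact ((hC z (c2 z hz).1).1 h3).1 ((c2 z hz).2.2 h1)
        · exact (pin_EE T N y z h3).ge
      omega
  · have a1 : AD (T.p c) c N := by
      refine (AD_of_cond T N y hC c hcr hh).mono ?_
      exact (Finset.sup_lt_iff (a := N) (by have := not_le.1 hy; exact Nat.zero_lt_of_lt this)).2
        fun u hu => not_le.1 fun h1 => hh ⟨u, hu, h1⟩
    have a2 : VN N (T.p c) := by
      intro z hz
      by_cases e : z = c
      · rw [e]
        exact a1
      · have a3 := hc (T.p c) hadj.symm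
        generalize T.p c = q at a3 hz
        rcases a3 with ⟨_, _, k, _, k1, _, k3⟩
        exact (k3 z hz e).mono k1
    have c3 := (claim J M N hmin _ a2 c hadj).trans c1.symm
    rcases hadj with h1 | h1
    · exact lt_asymm h1.lt (c3.1 h1.lt)
    · exact lt_asymm h1.lt (c3.2 h1.lt)

theorem centre {β : Type} [Fintype β] [PartialOrder β] [DecidableEq β]
    (hα : (SimpleGraph.hasse α).IsTree) (hβ : (SimpleGraph.hasse β).IsTree) (J : Jm α) (M : Mm α)
    (J' : Jm β) (M' : Mm β) (Q : SameQ α β) (n : ℕ) (hn : Fintype.card α ≤ n)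
    (hn' : Fintype.card β ≤ n) : ∃ (N : ℕ) (c : α) (c' : β), Cen N n c ∧ Cen N n c' := by
  classical
  have hex := exists_VN hα
  obtain ⟨c, hc⟩ := Nat.find_spec hex
  obtain ⟨c', hc'⟩ := VN_transfer hα hβ Q _ ⟨c, hc⟩
  refine ⟨Nat.find hex, c, c', pin hα J M _ n hn (fun N' h r hr => Nat.find_min hex h ⟨r, hr⟩) c hc,
    pin hβ J' M' _ n hn' (fun N' h r hr => Nat.find_min hex h ?_) c' hc'⟩
  exact VN_transfer hβ hα (fun m => (Q m).symm) N' ⟨r, hr⟩

end Pool.Agent.Work.MP_be9894_co.Sb
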