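import Pool.Agent.Work.MP_be9894_co.Sb.Defs

set_option autoImplicit false
set_option linter.unusedSectionVars false

namespace Pool.Agent.Work.MP_be9894_co.Sb

open Finset Pool.Agent.Work.MP_be9894_co.H2

theorem recogb_uniq {α : Type} [Fintype α] [PartialOrder α] (hα : (SimpleGraph.hasse α).IsTree)
    {a b v m : α} (ha : a ⋖ v) (hb : b ⋖ v) (hma : m ≤ a) (hmb : m ≤ b) : a = b := by
  classical
  obtain ⟨T, hT, -⟩ := exists_RT α hα v
  have key : ∀ a, a ⋖ v → m ≤ a → T.anc a m ∧ T.dep a = T.dep v + 1 := by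
    intro a ha hma
    have h1 : a ≠ T.r ∧ T.p a = v := (T.all a v ha).resolve_right fun h => h.1 hT.symm
    refine ⟨?_, by rw [T.dp a h1.1, h1.2]⟩
    have h2 : Low (univ.filter fun x => x ≤ a ∧ T.anc a x) := by
      refine low_of_cov _ fun x y hyx hx => ?_
      obtain ⟨hx1, hx2⟩ := (mem_filter.1 hx).2
      refine mem_filter.2 ⟨mem_univ _, hyx.le.trans hx1, ?_⟩
      rcases T.all y x hyx with ⟨-, h3⟩ | ⟨-, h3⟩
      · exact T.anc_trans hx2 (h3 ▸ T.anc_p y)
      · by_cases e : a = x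
        · subst e
          rw [h1.2] at h3
          exact absurd (h3 ▸ hyx.lt) (lt_asymm ha.lt)
        · exact h3 ▸ T.anc_step hx2 e
    exact (mem_filter.1 (h2 a (mem_filter.2 ⟨mem_univ _, le_rfl, T.anc_refl a⟩) m hma)).2.2
  obtain ⟨a1, a2⟩ := key a ha hma
  obtain ⟨b1, b2⟩ := key b hb hmb
  rcases T.anc_total a1 b1 with h | h
  · exact T.anc_eq h (by omega)
  · exact (T.anc_eq h (by omega)).symm

theorem recogb_card {α : Type} [Fintype α] [PartialOrder α] (hα : (SimpleGraph.hasse α).IsTree)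
    [DecidablePred (fun q : α × α => q.1 ⋖ q.2)] :
    (univ.filter fun q : α × α => q.1 ⋖ q.2).card + 1 = Fintype.card α := by
  classical
  obtain ⟨r⟩ := hα.connected.nonempty
  obtain ⟨T, -, -⟩ := exists_RT α hα r
  have h : (univ.erase T.r).card = (univ.filter fun q : α × α => q.1 ⋖ q.2).card := by
    refine card_nbij (fun z => if z ⋖ T.p z then (z, T.p z) else (T.p z, z)) ?_ ?_ ?_
    · intro z hz
      have hz := ne_of_mem_erase (mem_coe.1 hz)
      refine mem_coe.2 (mem_filter.2 ⟨mem_univ _, ?_⟩)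
      by_cases e : z ⋖ T.p z
      · simp only [if_pos e]; exact e
      · simp only [if_neg e]; exact (T.adj z hz).resolve_left e
    · intro z hz y hy e
      have hz := T.dp z (ne_of_mem_erase (mem_coe.1 hz))
      have hy := T.dp y (ne_of_mem_erase (mem_coe.1 hy))
      by_cases e1 : z ⋖ T.p z <;> by_cases e2 : y ⋖ T.p y
      · simp only [if_pos e1, if_pos e2, Prod.mk.injEq] at e; exact e.1
      · simp only [if_pos e1, if_neg e2, Prod.mk.injEq] at e
        rw [e.2] at hz; rw [← e.1] at hy; omega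
      · simp only [if_neg e1, if_pos e2, Prod.mk.injEq] at e
        rw [e.1] at hz; rw [← e.2] at hy; omega
      · simp only [if_neg e1, if_neg e2, Prod.mk.injEq] at e; exact e.2
    · rintro ⟨a, b⟩ hq
      have hq : a ⋖ b := (mem_filter.1 (mem_coe.1 hq)).2
      rcases T.all a b hq with ⟨h1, h2⟩ | ⟨h1, h2⟩
      · refine ⟨a, mem_coe.2 (mem_erase.2 ⟨h1, mem_univ _⟩), ?_⟩
        have e : a ⋖ T.p a := h2 ▸ hq
        simp only [if_pos e]; rw [h2]
      · refine ⟨b, mem_coe.2 (mem_erase.2 ⟨h1, mem_univ _⟩), ?_⟩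
        have e : ¬ b ⋖ T.p b := fun e => lt_asymm hq.lt (h2 ▸ e.lt)
        simp only [if_neg e]; rw [h2]
  rw [← h, card_erase_add_one (mem_univ _), card_univ]

theorem recogb_min {α : Type} [Fintype α] [PartialOrder α] (a : α) : ∃ m, m ≤ a ∧ IsMin m := by
  obtain ⟨m, hm, h⟩ := (wellFounded_lt (α := α)).has_min {x | x ≤ a} ⟨a, le_rfl⟩
  refine ⟨m, hm, fun b hb => ?_⟩
  rcases hb.eq_or_lt with e | e
  · exact e.ge
  · exact absurd e (h b (hb.trans hm))

theorem recogb_one {α : Type} [Fintype α] [PartialOrder α] (hJ : Jm α) {m m' : α} (hm : IsMin m)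
    (hm' : IsMin m') (a : α) : (∃ d, a < d) → m ≤ a → m' ≤ a → m = m' := by
  induction a using (wellFounded_lt (α := α)).induction with
  | _ a ih =>
    rintro ⟨d, hd⟩ h1 h2
    rcases h1.eq_or_lt with e | h1
    · subst e; exact le_antisymm (hm h2) h2
    rcases h2.eq_or_lt with e | h2
    · subst e; exact absurd h1 hm'.not_lt
    obtain ⟨b, hb1, hb2⟩ := exists_le_covBy_of_lt h1
    obtain ⟨c, hc1, hc2⟩ := exists_le_covBy_of_lt h2
    have e : b = c := by
      by_contra e
      exact hJ b c a d hb2 hc2 e hd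
    subst e
    exact ih b hb2.lt ⟨a, hb2.lt⟩ hb1 hc1

/-- In a tree two distinct lower covers of v have no common lower bound (root the tree at v with
exists_RT: everything below a child a of v stays in desc a, by low_of_cov or induction on covers;
the sets desc a are disjoint). There are card - 1 cover pairs (z ↦ (z, p z) or (p z, z)).
With μ a a chosen minimal element below a, the map (a ⋖ v) ↦ (μ a, v) is injective into the pairs,
and it is onto iff Jm. -/
theorem jm_iff {α : Type} [Fintype α] [PartialOrder α] (hα : (SimpleGraph.hasse α).IsTree)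
    [DecidablePred (fun q : α × α => IsMin q.1 ∧ q.1 < q.2)] :
    Jm α ↔ (univ.filter fun q : α × α => IsMin q.1 ∧ q.1 < q.2).card + 1 = Fintype.card α := by
  classical
  choose μ hμ1 hμ2 using recogb_min (α := α)
  have hc := recogb_card hα
  have hmap : Set.MapsTo (fun q : α × α => (μ q.1, q.2))
      (univ.filter fun q : α × α => q.1 ⋖ q.2 : Finset (α × α))
      (univ.filter fun q : α × α => IsMin q.1 ∧ q.1 < q.2 : Finset (α × α)) := by
    intro q hq
    have hq : q.1 ⋖ q.2 := (mem_filter.1 (mem_coe.1 hq)).2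
    exact mem_coe.2 (mem_filter.2 ⟨mem_univ _, hμ2 _, (hμ1 _).trans_lt hq.lt⟩)
  have hinj : Set.InjOn (fun q : α × α => (μ q.1, q.2))
      (univ.filter fun q : α × α => q.1 ⋖ q.2 : Finset (α × α)) := by
    rintro ⟨a, v⟩ h1 ⟨b, w⟩ h2 e
    have h1 : a ⋖ v := (mem_filter.1 (mem_coe.1 h1)).2
    have h2 : b ⋖ w := (mem_filter.1 (mem_coe.1 h2)).2
    simp only [Prod.mk.injEq] at e
    obtain ⟨e1, e2⟩ := e
    subst e2
    rw [recogb_uniq hα h1 h2 (hμ1 a) (e1 ▸ hμ1 b)]
  constructor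
  · intro hJ
    rw [← hc]
    congr 1
    refine (card_nbij _ hmap hinj ?_).symm
    rintro ⟨m, v⟩ hq
    obtain ⟨h1, h2⟩ : IsMin m ∧ m < v := (mem_filter.1 (mem_coe.1 hq)).2
    obtain ⟨a, ha1, ha2⟩ := exists_le_covBy_of_lt h2
    refine ⟨(a, v), mem_coe.2 (mem_filter.2 ⟨mem_univ _, ha2⟩), ?_⟩
    show (μ a, v) = (m, v)
    rw [recogb_one hJ (hμ2 a) h1 a ⟨v, ha2.lt⟩ (hμ1 a) ha1]
  · intro h a b c d ha hb hab hcd
    have hs := Finset.surjOn_of_injOn_of_card_le _ hmap hinj (by omega)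
    obtain ⟨e, he1, he2⟩ := exists_le_covBy_of_lt hcd
    have key : ∀ a, a ⋖ c → μ e = μ a := by
      intro a ha
      obtain ⟨⟨x, w⟩, hx, e1⟩ := hs (show (μ a, d) ∈ _ from mem_coe.2 (mem_filter.2
        ⟨mem_univ _, hμ2 a, ((hμ1 a).trans ha.le).trans_lt hcd⟩))
      have hx : x ⋖ w := (mem_filter.1 (mem_coe.1 hx)).2
      simp only [Prod.mk.injEq] at e1
      obtain ⟨e1, e2⟩ := e1
      subst e2
      rw [← recogb_uniq hα hx he2 (e1 ▸ hμ1 x) (((hμ1 a).trans ha.le).trans he1), e1]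
    exact hab (recogb_uniq hα ha hb (key a ha ▸ hμ1 a) (key b hb ▸ hμ1 b))

end Pool.Agent.Work.MP_be9894_co.Sb
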