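import Pool.Agent.Work.MP_be9894_co.Sb.RecogA
import Pool.Agent.Work.MP_be9894_co.Sb.RecogB

set_option autoImplicit false
set_option linter.unusedSectionVars false

namespace Pool.Agent.Work.MP_be9894_co.Sb

open Finset Pool.Agent.Work.MP_be9894_co.H2

lemma recog_lt {γ : Type} [Fintype γ] {N : ℕ} {m : ℕ → ℕ} (hm : ∀ i, N ≤ i → m i = 0)
    {f : γ → ℕ} (h : ∀ i, (univ.filter (fun a => f a = i)).card = m i) (a : γ) : f a < N := by
  by_contra hh
  have h1 := h (f a)
  rw [hm _ (not_lt.1 hh), card_eq_zero, filter_eq_empty_iff] at h1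
  exact h1 (mem_univ a) rfl

lemma recog_fib {γ : Type} [Fintype γ] {N : ℕ} {m : ℕ → ℕ} {f : γ → ℕ} (hlt : ∀ a, f a < N)
    (h : ∀ i, (univ.filter (fun a => f a = i)).card = m i) (i : ℕ) :
    (univ.filter (fun a => N - 1 - f a = i)).card = if i < N then m (N - 1 - i) else 0 := by
  split_ifs with hi
  · rw [← h]
    refine congrArg card (filter_congr fun a _ => ?_)
    have := hlt a
    omega
  · rw [card_eq_zero, filter_eq_empty_iff]
    intro a _
    have := hlt a
    omega

lemma recog_rev (γ : Type) [Fintype γ] [PartialOrder γ] (N : ℕ) (m m' : ℕ → ℕ)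
    (hm : ∀ i, N ≤ i → m i = 0) (hm' : ∀ i, m' i = if i < N then m (N - 1 - i) else 0) :
    Set.ncard {f : γᵒᵈ → ℕ | StrictMono f ∧
        ∀ i : ℕ, (univ.filter (fun a => f a = i)).card = m i} =
      Set.ncard {g : γ → ℕ | StrictMono g ∧
        ∀ i : ℕ, (univ.filter (fun a => g a = i)).card = m' i} := by
  have hz : ∀ i, N ≤ i → m' i = 0 := fun i hi => by rw [hm', if_neg (not_lt.2 hi)]
  refine Set.ncard_congr (fun f _ a => N - 1 - f (OrderDual.toDual a)) ?_ ?_ ?_
  · rintro f ⟨h1, h2⟩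
    have h3 := recog_lt hm h2
    refine ⟨fun a b hab => ?_, fun i => (recog_fib h3 h2 i).trans (hm' i).symm⟩
    have h4 : f (OrderDual.toDual b) < f (OrderDual.toDual a) := h1 hab
    have h5 := h3 (OrderDual.toDual a)
    show N - 1 - f (OrderDual.toDual a) < N - 1 - f (OrderDual.toDual b)
    omega
  · rintro f g ⟨-, h2⟩ ⟨-, g2⟩ e
    funext a
    have h3 := recog_lt hm h2 a
    have g3 := recog_lt hm g2 a
    have h4 : N - 1 - f a = N - 1 - g a := congrFun e (OrderDual.ofDual a)
    omega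
  · rintro g ⟨h1, h2⟩
    have h3 := recog_lt hz h2
    refine ⟨fun a => N - 1 - g (OrderDual.ofDual a), ⟨fun a b hab => ?_, fun i => ?_⟩, ?_⟩
    · have h4 : g (OrderDual.ofDual b) < g (OrderDual.ofDual a) := h1 hab
      have h5 := h3 (OrderDual.ofDual a)
      show N - 1 - g (OrderDual.ofDual a) < N - 1 - g (OrderDual.ofDual b)
      omega
    · refine (recog_fib h3 h2 i).trans ?_
      split_ifs with hi
      · rw [hm', if_pos (by omega)]
        exact congrArg m (by omega)
      · exact (hm i (not_lt.1 hi)).symm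
    · funext a
      have h5 := h3 a
      show N - 1 - (N - 1 - g a) = g a
      omega

lemma recog_jm {α β : Type} [Fintype α] [PartialOrder α] [Fintype β] [PartialOrder β]
    (hα : (SimpleGraph.hasse α).IsTree) (hβ : (SimpleGraph.hasse β).IsTree) (J : Jm α)
    (Q : SameQ α β) : Jm β := by
  classical
  rw [jm_iff hβ, ← pair_eq Q, ← card_eq Q]
  exact (jm_iff hα).1 J

lemma recog_tree {α : Type} [PartialOrder α] (hα : (SimpleGraph.hasse α).IsTree) :
    (SimpleGraph.hasse αᵒᵈ).IsTree :=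
  (SimpleGraph.hasseDualIso (α := α)).isTree_iff.2 hα

/-- reverse the levels: for m with support below N, f ↦ N - 1 - f -/
theorem SameQ_dual {α β : Type} [Fintype α] [PartialOrder α] [Fintype β] [PartialOrder β]
    (Q : SameQ α β) : SameQ αᵒᵈ βᵒᵈ := by
  intro m
  obtain ⟨N, hN⟩ : ∃ N, ∀ i, N ≤ i → m i = 0 :=
    ⟨m.support.sup id + 1, fun i hi => by
      by_contra hh
      have : id i ≤ m.support.sup id := le_sup (Finsupp.mem_support_iff.2 hh)
      exact absurd (hi.trans this) (Nat.not_succ_le_self _)⟩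
  let m' : ℕ →₀ ℕ := Finsupp.onFinset (range N) (fun i => if i < N then m (N - 1 - i) else 0)
    (fun i hi => mem_range.2 (by
      by_contra hh
      exact hi (if_neg hh)))
  exact (recog_rev α N m m' hN fun _ => rfl).trans
    ((Q m').trans (recog_rev β N m m' hN fun _ => rfl).symm)

/-- jm_iff, pair_eq, card_eq; the second half by SameQ_dual and SimpleGraph.hasseDualIso -/
theorem recog {α β : Type} [Fintype α] [PartialOrder α] [Fintype β] [PartialOrder β]
    (hα : (SimpleGraph.hasse α).IsTree) (hβ : (SimpleGraph.hasse β).IsTree) (J : Jm α) (M : Mm α)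
    (Q : SameQ α β) : Jm β ∧ Mm β := by
  have J' : Jm αᵒᵈ := fun a b c d h1 h2 h3 =>
    M (OrderDual.ofDual a) (OrderDual.ofDual b) (OrderDual.ofDual c) (OrderDual.ofDual d)
      h1.ofDual h2.ofDual h3
  have J2 : Jm βᵒᵈ := recog_jm (recog_tree hα) (recog_tree hβ) J' (SameQ_dual Q)
  exact ⟨recog_jm hα hβ J Q, fun a b c d h1 h2 h3 =>
    J2 (OrderDual.toDual a) (OrderDual.toDual b) (OrderDual.toDual c) (OrderDual.toDual d)
      h1.toDual h2.toDual h3⟩

end Pool.Agent.Work.MP_be9894_co.Sb
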