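import Pool.Agent.Work.MP_be9894_co.Sb.Alg3
import Pool.Agent.Work.MP_be9894_co.Sb.Form
import Pool.Agent.Work.MP_be9894_co.Sb.Recog
import Pool.Agent.Work.MP_be9894_co.Sb.Pin

set_option autoImplicit false
set_option linter.unusedSectionVars false

namespace Pool.Agent.Work.MP_be9894_co.Sb

open Finset
open Pool.Agent.Work.MP_be9894_co.H2 (RT exists_RT SameQ Theta_eq exists_match iso_of_cov TT VV PP)

variable {α : Type} [Fintype α] [PartialOrder α] [DecidableEq α]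

lemma ch_ne_p (T : RT α) {x z : α} (hz : z ∈ T.ch x) : z ≠ T.p x := fun e => by
  have h1 := T.dep_ch hz
  have h2 := T.dep_p x
  rw [e] at h1
  omega

lemma ch_adj (T : RT α) {x z : α} (hz : z ∈ T.ch x) : z ⋖ x ∨ x ⋖ z :=
  (T.mem_ch.1 hz).2 ▸ T.adj z (T.mem_ch.1 hz).1

lemma hole_single (T : RT α) (J : Jm α) (M : Mm α) :
    ∀ x, x ≠ T.r → ∀ z ∈ T.ch x, (z < x ↔ x < T.p x) → T.ch x = {z} := by
  intro x hx z hz h
  refine eq_singleton_iff_unique_mem.2 ⟨hz, fun w hw => by_contra fun hne => ?_⟩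
  rcases T.adj x hx with a | a
  · have b : z ⋖ x := (ch_adj T hz).resolve_right fun b => lt_asymm b.lt (h.2 a.lt)
    rcases ch_adj T hw with c | c
    · exact J w z x _ c b hne a.lt
    · exact M w _ x z c a (ch_ne_p T hw) b.lt
  · have b : x ⋖ z := (ch_adj T hz).resolve_left fun b => lt_asymm a.lt (h.1 b.lt)
    rcases ch_adj T hw with c | c
    · exact J w _ x z c a (ch_ne_p T hw) b.lt
    · exact M w z x _ c b hne a.lt

lemma WF_cd (T : RT α) (D : ℕ) (hD : ∀ x, T.dep x ≤ D)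
    (hS : ∀ x, x ≠ T.r → ∀ z ∈ T.ch x, (z < x ↔ x < T.p x) → T.ch x = {z}) :
    ∀ x, x ≠ T.r → ∀ h, D + 1 ≤ h + T.dep x → WF h (cd T h x) := by
  refine T.ind_up _ fun x ih hx h hh => ?_
  have hdx := hD x
  obtain ⟨h, rfl⟩ : ∃ k, h = k + 1 := ⟨h - 1, by omega⟩
  have lev : ∀ z ∈ T.ch x, D + 1 ≤ h + T.dep z := fun z hz => by rw [T.dep_ch hz]; omega
  refine ⟨fun c hc => ?_, fun ⟨c, hc, hc2⟩ => ?_⟩
  · obtain ⟨z, hz, rfl⟩ := Multiset.mem_map.1 (kd_cd T h x ▸ hc)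
    exact ih z hz (T.mem_ch.1 hz).1 h (lev z hz)
  · obtain ⟨z, hz, rfl⟩ := Multiset.mem_map.1 (kd_cd T h x ▸ hc)
    have hz : z ∈ T.ch x := hz
    have tz : ty (cd T h z) = true ↔ z < x := by
      obtain ⟨h, rfl⟩ : ∃ k, h = k + 1 := ⟨h - 1, by have := hD z; have := lev z hz; omega⟩
      rw [ty_cd_iff, (T.mem_ch.1 hz).2]
    refine ⟨cd T h z, ?_⟩
    rw [kd_cd, hS x hx z hz (by rw [← tz, hc2, ty_cd_iff])]
    rfl

lemma alive_cd (T : RT α) (D : ℕ) (hD : ∀ x, T.dep x ≤ D) :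
    ∀ x h, D + 1 ≤ h + T.dep x → ∀ i, AD (T.p x) x i → gg TT h (cd T h x) i ≠ 0 := by
  refine T.ind_up _ fun x ih h hh i hA => ?_
  have hdx := hD x
  obtain ⟨h, rfl⟩ : ∃ k, h = k + 1 := ⟨h - 1, by omega⟩
  obtain ⟨k, h1, h2, h3⟩ := pina_inv hA
  refine gg_mono h1 (fit_of (by rw [ty_cd_iff, h2]) fun c hc => ?_)
  obtain ⟨z, hz, rfl⟩ := Multiset.mem_map.1 (kd_cd T h x ▸ hc)
  have hz : z ∈ T.ch x := hz
  refine ih z hz h (by rw [T.dep_ch hz]; omega) _ ?_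
  rw [(T.mem_ch.1 hz).2]
  exact h3 z (ch_adj T hz) (ch_ne_p T hz)

lemma cov_iff (T : RT α) (a b : α) : a ⋖ b ↔
    ((a ≠ T.r ∧ T.p a = b) ∧ a < T.p a) ∨ ((b ≠ T.r ∧ T.p b = a) ∧ ¬ b < T.p b) := by
  constructor
  · intro h
    rcases T.all a b h with h1 | h1
    · exact Or.inl ⟨h1, h1.2 ▸ h.lt⟩
    · exact Or.inr ⟨h1, h1.2 ▸ lt_asymm h.lt⟩
  · rintro (⟨⟨h1, rfl⟩, h3⟩ | ⟨⟨h1, rfl⟩, h3⟩)
    · exact (lt_p_iff T h1).1 h3
    · exact (not_lt_p_iff T h1).1 h3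

theorem iso_of_cd {β : Type} [Fintype β] [PartialOrder β] [DecidableEq β] (T : RT α) (T' : RT β)
    (hc : Fintype.card α = Fintype.card β) (D : ℕ) (hD : ∀ x, T.dep x ≤ D)
    (e0 : (T.ch T.r).val.map (cd T D) = (T'.ch T'.r).val.map (cd T' D)) : Nonempty (α ≃o β) := by
  have ex : ∀ (x : α) (x' : β) (h : ℕ), ∃ σ : α → β,
      (T.ch x).val.map (cd T h) = (T'.ch x').val.map (cd T' h) →
      (∀ a ∈ T.ch x, σ a ∈ T'.ch x' ∧ cd T' h (σ a) = cd T h a) ∧
        ∀ a ∈ T.ch x, ∀ a' ∈ T.ch x, σ a = σ a' → a = a' := by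
    intro x x' h
    by_cases e : (T.ch x).val.map (cd T h) = (T'.ch x').val.map (cd T' h)
    · obtain ⟨σ, hσ⟩ := exists_match x' (cd T h) (cd T' h) (T.ch x) (T'.ch x') e
      exact ⟨σ, fun _ => hσ⟩
    · exact ⟨fun _ => x', fun h1 => absurd h1 e⟩
  choose σ hσ using ex
  let E : ℕ → α → β := fun k => Nat.rec (fun _ => T'.r)
    (fun k Ek x => σ (T.p x) (Ek (T.p x)) (D - k) x) k
  let e : α → β := fun x => E (T.dep x) x
  have er : e T.r = T'.r := by simp only [e, T.dr]; rfl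
  have es : ∀ x, x ≠ T.r → e x = σ (T.p x) (e (T.p x)) (D - T.dep (T.p x)) x := by
    intro x hx
    simp only [e]
    rw [T.dp x hx]
  have step : ∀ x, x ≠ T.r → (T.ch (T.p x)).val.map (cd T (D - T.dep (T.p x))) =
      (T'.ch (e (T.p x))).val.map (cd T' (D - T.dep (T.p x))) →
      cd T' (D - T.dep x + 1) (e x) = cd T (D - T.dep x + 1) x := by
    intro x hx ih
    have h1 := T.dp x hx
    have h2 := hD x
    rw [show D - T.dep x + 1 = D - T.dep (T.p x) by omega, es x hx]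
    exact ((hσ _ _ _ ih).1 x (T.mem_ch.2 ⟨hx, rfl⟩)).2
  have inv : ∀ x, (T.ch x).val.map (cd T (D - T.dep x)) =
      (T'.ch (e x)).val.map (cd T' (D - T.dep x)) := by
    refine T.ind_down _ ?_ fun x hx ih => ?_
    · rw [T.dr, er]; exact e0
    · exact (congrArg kd (step x hx ih)).symm
  have col : ∀ x, x ≠ T.r → (x < T.p x ↔ e x < T'.p (e x)) := fun x hx => by
    rw [← ty_cd_iff T (D - T.dep x), ← ty_cd_iff T' (D - T.dep x), step x hx (inv _)]
  have ech : ∀ x, x ≠ T.r → e x ≠ T'.r ∧ T'.p (e x) = e (T.p x) := by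
    intro x hx
    rw [← T'.mem_ch, es x hx]
    exact ((hσ _ _ _ (inv _)).1 x (T.mem_ch.2 ⟨hx, rfl⟩)).1
  have inj : ∀ x y, e x = e y → x = y := by
    refine T.ind_down _ (fun y h => ?_) fun x hx ih y h => ?_
    · by_contra hy
      exact (ech y (Ne.symm hy)).1 (h ▸ er)
    · have hy : y ≠ T.r := fun hy => (ech x hx).1 (by rw [h, hy, er])
      have h1 : T.p x = T.p y := ih _ (by rw [← (ech x hx).2, ← (ech y hy).2, h])
      refine (hσ _ _ _ (inv (T.p x))).2 x (T.mem_ch.2 ⟨hx, rfl⟩) y (T.mem_ch.2 ⟨hy, h1.symm⟩) ?_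
      rw [← es x hx, h, es y hy, h1]
  have par : ∀ a b, (a ≠ T.r ∧ T.p a = b) ↔ (e a ≠ T'.r ∧ T'.p (e a) = e b) := by
    intro a b
    constructor
    · rintro ⟨h1, rfl⟩
      exact ech a h1
    · rintro ⟨h1, h2⟩
      have h3 : a ≠ T.r := fun h => h1 (h ▸ er)
      exact ⟨h3, inj _ _ ((ech a h3).2 ▸ h2)⟩
  refine iso_of_cov (Equiv.ofBijective e ((Fintype.bijective_iff_injective_and_card e).2
    ⟨fun x y h => inj x y h, hc⟩)) fun a b => ?_
  rw [Equiv.ofBijective_apply, Equiv.ofBijective_apply, cov_iff T, cov_iff T', ← par, ← par]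
  exact or_congr (and_congr_right fun h => col a h.1)
    (and_congr_right fun h => not_congr (col b h.1))

lemma root_kids (T : RT α) (J : Jm α) (M : Mm α) (N n D : ℕ) (hD : ∀ x, T.dep x ≤ D)
    (hc : Cen N n T.r) : ∀ z ∈ (T.ch T.r).val.map (cd T D),
      WF D z ∧ ty z = decide (N % 2 = 1) ∧ gg TT D z N ≠ 0 := by
  intro c h
  obtain ⟨z, hz, rfl⟩ := Multiset.mem_map.1 h
  have hz : z ∈ T.ch T.r := hz
  obtain ⟨z1, z2⟩ := T.mem_ch.1 hz
  have lev : D + 1 ≤ D + T.dep z := by rw [T.dep_ch hz]; omega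
  refine ⟨WF_cd T D hD (hole_single T J M) z z1 D lev, ?_,
    alive_cd T D hD z D lev N (z2 ▸ hc.1 z (ch_adj T hz))⟩
  obtain ⟨h, rfl⟩ : ∃ k, D = k + 1 := ⟨D - 1, by have := hD z; have := T.dep_ch hz; omega⟩
  rw [Bool.eq_iff_iff, ty_cd_iff, z2, hc.2.1 z (ch_adj T hz), decide_eq_true_iff]

theorem main {α β : Type} [Fintype α] [PartialOrder α] [Fintype β] [PartialOrder β]
    (hα : (SimpleGraph.hasse α).IsTree) (hβ : (SimpleGraph.hasse β).IsTree) (J : Jm α) (M : Mm α)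
    (Q : SameQ α β) : Nonempty (α ≃o β) := by
  classical
  obtain ⟨J', M'⟩ := recog hα hβ J M Q
  have hc := card_eq Q
  obtain ⟨N, c, c', C, C'⟩ := centre hα hβ J M J' M' Q (Fintype.card α) le_rfl hc.ge
  obtain ⟨T, rfl, _⟩ := exists_RT α hα c
  obtain ⟨T', rfl, _⟩ := exists_RT β hβ c'
  obtain ⟨D, hD, hD'⟩ : ∃ D, (∀ x, T.dep x ≤ D) ∧ ∀ x, T'.dep x ≤ D :=
    ⟨max (univ.sup T.dep) (univ.sup T'.dep),
      fun x => (Finset.le_sup (mem_univ x)).trans (le_max_left _ _),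
      fun x => (Finset.le_sup (mem_univ x)).trans (le_max_right _ _)⟩
  set n := Fintype.card α with hn
  have k := root_kids T J M N n D hD C
  have k' := root_kids T' J' M' N n D hD' C'
  refine iso_of_cd T T' hc D hD (prod_inj (D + n + 1) D N (by omega) _ _ _ k k' ?_)
  have e : Th α N n (D + n + 1) TT (VV 0) (VV 1) = Th β N n (D + n + 1) TT (VV 0) (VV 1) :=
    Theta_eq Q _ _ _
  have t : ∀ z ∈ T.ch T.r, (z < T.p z ↔ N % 2 = 1) := fun z hz => by
    rw [(T.mem_ch.1 hz).2, C.2.1 z (ch_adj T hz)]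
  have t' : ∀ z ∈ T'.ch T'.r, (z < T'.p z ↔ N % 2 = 1) := fun z hz => by
    rw [(T'.mem_ch.1 hz).2, C'.2.1 z (ch_adj T' hz)]
  by_cases hN : N % 2 = 1
  · rw [Th_sink T N n _ D le_rfl hD (by omega) (hole_single T J M) C.2.2
        (fun z hz => (t z hz).2 hN),
      Th_sink T' N n _ D hc.ge hD' (by omega) (hole_single T' J' M') C'.2.2
        (fun z hz => (t' z hz).2 hN)] at e
    exact mul_left_cancel₀ (MvPolynomial.X_ne_zero _) e
  · rw [Th_source T N n _ D le_rfl hD (by omega) (hole_single T J M) C.2.2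
        (fun z hz h => hN ((t z hz).1 h)),
      Th_source T' N n _ D hc.ge hD' (by omega) (hole_single T' J' M') C'.2.2
        (fun z hz h => hN ((t' z hz).1 h))] at e
    have e1 := congrArg (kU true) e
    simp only [map_add, map_mul, map_sub, kU_ggp, show kU true (VV 0) = 0 from kU_U true,
      show kU true (VV 1) = VV 1 from kU_V false, zero_mul, zero_add, sub_zero] at e1
    rw [mul_left_cancel₀ (MvPolynomial.X_ne_zero _) e1, add_left_inj] at e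
    exact mul_left_cancel₀ (MvPolynomial.X_ne_zero _) e

end Pool.Agent.Work.MP_be9894_co.Sb
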