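import Pool.Agent.Work.MP_be9894_co.Sb.Defs

set_option autoImplicit false
set_option linter.unusedSectionVars false

namespace Pool.Agent.Work.MP_be9894_co.Sb

open Finset Pool.Agent.Work.MP_be9894_co.H2

variable {α : Type} [Fintype α] [PartialOrder α] [DecidableEq α]

lemma AD.mono {w x : α} {i i' : ℕ} (h : AD w x i) (hi : i ≤ i') : AD w x i' := by
  cases h with
  | mk _ _ k _ hk hp hz => exact AD.mk w x k i' (lt_of_lt_of_le hk hi) hp hz

lemma pina_inv {w x : α} {i : ℕ} (h : AD w x i) : ∃ k < i, (x < w ↔ k % 2 = 0) ∧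
    ∀ z, (z ⋖ x ∨ x ⋖ z) → z ≠ w → AD x z (k + 1) := by
  cases h with
  | mk _ _ k _ hk hp hz => exact ⟨k, hk, hp, hz⟩

lemma pina_ch (T : RT α) {x z : α} (hz : z ⋖ x ∨ x ⋖ z) (hne : z ≠ T.p x) : z ∈ T.ch x := by
  rcases T.adj_cases hz with h | h
  · exact T.mem_ch.2 h
  · exact absurd h.2.symm hne

lemma pina_ne (T : RT α) {x : α} (hx : x ≠ T.r) : x ≠ T.p (T.p x) := fun e => by
  have h1 := T.dp x hx
  have h2 := T.dep_p (T.p x)
  rw [← e] at h2
  omega

lemma pina_ne_r (T : RT α) {x u : α} (hx : x ≠ T.r) (hu : u ∈ T.desc x) : u ≠ T.r :=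
  fun e => T.not_anc_root hx (e ▸ T.mem_desc.1 hu)

/-- T.ind_up with k = sup of y on desc x; the neighbours of x other than p x are the children
(T.adj_cases); children have no block either and a smaller or equal sup -/
lemma AD_of_cond (T : RT α) (N : ℕ) (y : α → ℕ) (h : ∀ x, x ≠ T.r → Cond T N y x) :
    ∀ x, x ≠ T.r → ¬ has T N y x → AD (T.p x) x ((T.desc x).sup y + 1) := by
  refine T.ind_up _ fun x ih hx hn => ?_
  refine AD.mk _ _ _ _ (Nat.lt_succ_self _) ((h x hx).2 hn) fun z hz hne => ?_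
  have hc := pina_ch T hz hne
  obtain ⟨h1, h2⟩ := T.mem_ch.1 hc
  have hs : T.desc z ⊆ T.desc x := fun u hu =>
    T.mem_desc.2 (T.anc_trans (h2 ▸ T.anc_p z) (T.mem_desc.1 hu))
  have h3 := ih z hc h1 fun ⟨u, hu, hu2⟩ => hn ⟨u, hs hu, hu2⟩
  rw [h2] at h3
  exact h3.mono (Nat.succ_le_succ (Finset.sup_mono hs))

/-- root at r (exists_RT); y r = N, y x = the least k with AD (p x) x (k+1); this k has the parity
of the type of x and y is monotone towards the root, so the sup on desc x is y x; valid_iff_cond -/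
lemma exists_single (hT : (SimpleGraph.hasse α).IsTree) (N n : ℕ) (hn : Fintype.card α ≤ n) (r : α)
    (h : VN N r) : ∃ y : α → ℕ, Valid N n 0 y ∧ y r = N ∧ ∀ x, x ≠ r → y x < N := by
  classical
  obtain ⟨T, rfl, -⟩ := exists_RT α hT r
  have A : ∀ x, x ≠ T.r → ∃ k < N, AD (T.p x) x (k + 1) := by
    refine T.ind_down _ (fun h0 => absurd rfl h0) fun x hx ih _ => ?_
    by_cases hp : T.p x = T.r
    · obtain ⟨k, hk, h1, h2⟩ := pina_inv (h x (hp ▸ T.adj x hx))
      exact ⟨k, hk, hp ▸ AD.mk _ _ k _ (Nat.lt_succ_self _) h1 h2⟩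
    · obtain ⟨k, hk, h1⟩ := ih hp
      obtain ⟨k', hk', -, h2⟩ := pina_inv h1
      exact ⟨k', by omega, h2 x (T.adj x hx) (pina_ne T hx)⟩
  set f : α → ℕ := fun x => sInf {k | AD (T.p x) x (k + 1)} with hf
  have fle : ∀ x k, AD (T.p x) x (k + 1) → f x ≤ k := fun x k hk => Nat.sInf_le hk
  have flt : ∀ x, x ≠ T.r → f x < N := fun x hx => by
    obtain ⟨k, hk, h1⟩ := A x hx
    exact (fle x k h1).trans_lt hk
  have B : ∀ x, x ≠ T.r → (x < T.p x ↔ f x % 2 = 0) ∧
      ∀ z, (z ⋖ x ∨ x ⋖ z) → z ≠ T.p x → AD x z (f x + 1) := fun x hx => by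
    obtain ⟨k, -, h1⟩ := A x hx
    have h2 : AD (T.p x) x (f x + 1) :=
      Nat.sInf_mem (s := {k | AD (T.p x) x (k + 1)}) ⟨k, h1⟩
    obtain ⟨k', hk', h3, h4⟩ := pina_inv h2
    have h5 := fle x k' (AD.mk _ _ k' _ (Nat.lt_succ_self _) h3 h4)
    obtain rfl : k' = f x := by omega
    exact ⟨h3, h4⟩
  set y : α → ℕ := fun x => if x = T.r then N else f x with hy
  have yr : y T.r = N := if_pos rfl
  have yx : ∀ x, x ≠ T.r → y x = f x := fun x hx => if_neg hx
  have ylt : ∀ x, x ≠ T.r → y x < N := fun x hx => yx x hx ▸ flt x hx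
  have step : ∀ u, y u ≤ y (T.p u) := fun u => by
    by_cases hu : u = T.r
    · rw [hu, T.pr]
    by_cases hp : T.p u = T.r
    · rw [hp, yr]; exact (ylt u hu).le
    · rw [yx u hu, yx _ hp]
      exact fle u _ ((B _ hp).2 u (T.adj u hu) (pina_ne T hu))
  have up : ∀ k u, y u ≤ y (T.p^[k] u) := fun k u => by
    induction k with
    | zero => exact le_rfl
    | succ k ih => rw [Function.iterate_succ_apply']; exact ih.trans (step _)
  refine ⟨y, (valid_iff_cond T N n hn y yr.ge).2 ⟨?_, fun x hx => ?_⟩, yr, ylt⟩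
  · unfold EE
    rw [T.desc_root, Finset.sum_eq_single T.r (fun b _ hb => by
      unfold exc; exact if_neg (not_le.2 (ylt b hb))) (fun h0 => absurd (mem_univ _) h0), yr]
    simp [exc]
  · have hn : ¬ has T N y x := fun ⟨u, hu, hu2⟩ =>
      absurd (ylt u (pina_ne_r T hx hu)) (not_lt.2 hu2)
    refine ⟨fun h0 => absurd h0 hn, fun _ => ?_⟩
    have e : (T.desc x).sup y = f x := by
      rw [← yx x hx]
      refine le_antisymm (Finset.sup_le fun u hu => ?_)
        (Finset.le_sup (T.mem_desc.2 (T.anc_refl x)))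
      obtain ⟨k, hk⟩ := T.mem_desc.1 hu
      exact hk ▸ up k u
    rw [e]
    exact (B x hx).1

/-- valid_iff_cond and AD_of_cond at the children of the root -/
lemma VN_of_single (hT : (SimpleGraph.hasse α).IsTree) (N n : ℕ) (hn : Fintype.card α ≤ n) (r : α)
    (y : α → ℕ) (hV : Valid N n 0 y) (hr : N ≤ y r) (h : ∀ x, x ≠ r → y x < N) : VN N r := by
  obtain ⟨T, rfl, -⟩ := exists_RT α hT r
  have hc := ((valid_iff_cond T N n hn y hr).1 hV).2
  intro x hx
  rcases T.adj_cases hx with ⟨h1, h2⟩ | ⟨h1, -⟩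
  · have h3 := AD_of_cond T N y hc x h1 fun ⟨u, hu, hu2⟩ =>
      absurd (h u (pina_ne_r T h1 hu)) (not_lt.2 hu2)
    rw [h2] at h3
    exact h3.mono ((Finset.sup_lt_iff (Nat.zero_lt_of_lt (h x h1))).2
      fun u hu => h u (pina_ne_r T h1 hu))
  · exact absurd rfl h1

lemma pina_theta (γ : Type) [Fintype γ] [PartialOrder γ] [DecidableEq γ] (N n : ℕ) :
    Theta (Λ := Fin (N + 1)) γ (fun _ _ => (1 : ℤ))
      (fun c => tot c (blk N) = 1 ∧ tot c (fun l => exc N l) = -1)
      (fun c l => exc N l + win N n 0 l + blk N l * ((1 - tot c (win N n 0)) / tot c (blk N))) ≠ 0 ↔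
    ∃ y : γ → Fin (N + 1), ∑ b, blk N (y b) = 1 ∧ Valid N n 0 fun a => (y a : ℕ) := by
  classical
  unfold Theta
  simp only [tot_ct, Finset.prod_const_one, Finset.sum_boole, Ne, Nat.cast_eq_zero,
    Finset.card_eq_zero, Finset.filter_eq_empty_iff, not_forall, not_not]
  constructor
  · rintro ⟨y, -, ⟨h1, h2⟩, h3⟩
    exact ⟨y, h1, ⟨h1.ge, h2⟩, h3⟩
  · rintro ⟨y, h1, ⟨-, h2⟩, h3⟩
    exact ⟨y, @mem_univ _ (_) _, ⟨h1, h2⟩, h3⟩

/-- Theta_eq over ℤ with w = 1, Λ = Fin (N+1), adm c: tot c (blk N) = 1 and tot c exc = -1, val as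
in Th (tot_ct, sum_blk): a sum of indicators is nonzero iff some labelling is valid -/
lemma VN_transfer {β : Type} [Fintype β] [PartialOrder β] [DecidableEq β]
    (hα : (SimpleGraph.hasse α).IsTree) (hβ : (SimpleGraph.hasse β).IsTree) (Q : SameQ α β)
    (N : ℕ) (h : ∃ r : α, VN N r) : ∃ r : β, VN N r := by
  obtain ⟨r, hr⟩ := h
  obtain ⟨y, hV, h1, h2⟩ := exists_single hα N _ (le_max_left _ (Fintype.card β)) r hr
  have hle : ∀ a, y a < N + 1 := fun a => by
    by_cases e : a = r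
    · rw [e, h1]; exact Nat.lt_succ_self _
    · exact (h2 a e).trans (Nat.lt_succ_self _)
  have h3 := (pina_theta α N (max (Fintype.card α) (Fintype.card β))).2
    ⟨fun a => ⟨y a, hle a⟩, by
      show ∑ b, blk N (y b) = 1
      rw [Finset.sum_eq_single r (fun b _ hb => by
        unfold blk; exact if_neg (not_le.2 (h2 b hb))) (fun h0 => absurd (mem_univ _) h0), h1]
      simp [blk], hV⟩
  rw [Theta_eq Q] at h3
  obtain ⟨y', h4, h5⟩ := (pina_theta β N _).1 h3
  obtain ⟨r', hr'⟩ := exists_block h5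
  refine ⟨r', VN_of_single hβ N _ (le_max_right _ _) r' _ h5 hr' fun x hx => ?_⟩
  by_contra h6
  exact blk_ne_one (y := fun a => (y' a : ℕ)) hx (not_lt.1 h6) hr' h4

/-- any root; T.ind_up gives AD (p x) x i for some i (take k above all children, right parity) -/
lemma exists_VN (hT : (SimpleGraph.hasse α).IsTree) : ∃ (N : ℕ) (r : α), VN N r := by
  classical
  obtain ⟨r⟩ := hT.connected.nonempty
  obtain ⟨T, -, -⟩ := exists_RT α hT r
  have A : ∀ x, ∃ i, AD (T.p x) x i := by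
    refine T.ind_up _ fun x ih => ?_
    choose! g hg using ih
    refine ⟨_, AD.mk _ _ (2 * (T.ch x).sup g + if x < T.p x then 0 else 1) _ (Nat.lt_succ_self _)
      ?_ fun z hz hne => ?_⟩
    · split_ifs with h0
      · exact iff_of_true h0 (by omega)
      · exact iff_of_false h0 (by omega)
    · have hc := pina_ch T hz hne
      have h1 := hg z hc
      rw [(T.mem_ch.1 hc).2] at h1
      have h2 : g z ≤ (T.ch x).sup g := Finset.le_sup hc
      exact h1.mono (by omega)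
  obtain ⟨i, hi⟩ := A T.r
  obtain ⟨k, -, -, h⟩ := pina_inv hi
  refine ⟨k + 1, T.r, fun x hx => h x hx ?_⟩
  rw [T.pr]
  exact hx.elim (fun h0 => h0.ne) fun h0 => h0.ne'

end Pool.Agent.Work.MP_be9894_co.Sb
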