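import Pool.Agent.Work.MP_be9894_co.Sb.Defs

set_option autoImplicit false
set_option linter.unusedSectionVars false

namespace Pool.Agent.Work.MP_be9894_co.Sb

open Finset Pool.Agent.Work.MP_be9894_co.H2

lemma recoga_rank (α : Type) [Fintype α] [PartialOrder α] : ∃ f : α → ℕ, StrictMono f ∧
    (∀ a, f a < Fintype.card α + 1) ∧ ∀ a, IsMin a → f a = 0 := by
  classical
  refine ⟨fun a => (univ.filter fun b => b < a).card, fun a b hab => card_lt_card ⟨fun c hc => ?_,
    fun h => ?_⟩, fun a => Nat.lt_succ_of_le (card_le_univ _), fun a ha => ?_⟩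
  · exact mem_filter.2 ⟨mem_univ _, (mem_filter.1 hc).2.trans hab⟩
  · exact lt_irrefl a (mem_filter.1 (h (mem_filter.2 ⟨mem_univ _, hab⟩))).2
  · exact card_eq_zero.2 (filter_eq_empty_iff.2 fun b _ hb => ha.not_lt hb)

lemma recoga_min_le {α β : Type} [Fintype α] [PartialOrder α] [Fintype β] [PartialOrder β]
    [DecidablePred (fun a : α => IsMin a)] [DecidablePred (fun a : β => IsMin a)]
    (Q : SameQ α β) :
    (univ.filter fun a : α => IsMin a).card ≤ (univ.filter fun a : β => IsMin a).card := by
  obtain ⟨f, h1, h2, h3⟩ := recoga_rank α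
  obtain ⟨g, g1, -, g3⟩ := exists_strict Q _ f h1 h2
  have h4 : (univ.filter fun a : α => IsMin a).card ≤ ct f 0 :=
    card_le_card fun a ha => mem_filter.2 ⟨mem_univ _, h3 a (mem_filter.1 ha).2⟩
  have h5 : ct g 0 ≤ (univ.filter fun a : β => IsMin a).card := by
    refine card_le_card fun a ha => mem_filter.2 ⟨mem_univ _, ?_⟩
    by_contra hc
    obtain ⟨b, hb⟩ := not_isMin_iff.1 hc
    have h6 := g1 hb
    rw [(mem_filter.1 ha).2] at h6
    omega
  rw [g3] at h4
  exact h4.trans h5

open Classical in
/-- the labelling of a pair -/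
noncomputable def recoga_lab {α : Type} [PartialOrder α] (q : α × α) (a : α) : Fin 4 :=
  if a = q.1 then 2 else if a = q.2 then 3 else if IsMin a then 1 else 0

def recoga_val (N s : ℕ) : Fin 4 → ℚ := ![-1, N, N * (s + 1), -(N * s)]

lemma recoga_two {α : Type} [PartialOrder α] (q : α × α) (a : α) :
    recoga_lab q a = 2 ↔ a = q.1 := by
  unfold recoga_lab
  split_ifs with h1 <;> simp [h1]

lemma recoga_three {α : Type} [PartialOrder α] (q : α × α) (hq : q.1 < q.2) (a : α) :
    recoga_lab q a = 3 ↔ a = q.2 := by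
  unfold recoga_lab
  split_ifs with h1 h2
  · simp [h1, hq.ne]
  all_goals simp [h2]

lemma recoga_one {α : Type} [PartialOrder α] (q : α × α) (hq : q.1 < q.2) (a : α) :
    recoga_lab q a = 1 ↔ a ≠ q.1 ∧ IsMin a := by
  unfold recoga_lab
  split_ifs with h1 h2 h3
  · simp [h1]
  · simp [h2, hq.not_isMin]
  · simp [h1, h3]
  · simp [h3]

lemma recoga_valid {α : Type} [Fintype α] [PartialOrder α] (N s : ℕ) (hN : Fintype.card α ≤ N)
    (q : α × α) (hq : q.1 < q.2) (I : Finset α) (hI : Low I) :
    0 ≤ ∑ a ∈ I, recoga_val N s (recoga_lab q a) := by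
  classical
  have hc : (I.card : ℚ) ≤ N := by exact_mod_cast (card_le_univ I).trans hN
  have n0 : (0 : ℚ) ≤ N := Nat.cast_nonneg _
  have n1 : (0 : ℚ) ≤ N * s := by positivity
  by_cases hv : q.2 ∈ I
  · have h1 : ∀ a ∈ I, -1 + (if a = q.1 then (N : ℚ) * (s + 1) else 0) +
        (if a = q.2 then -((N : ℚ) * s) else 0) ≤ recoga_val N s (recoga_lab q a) := by
      intro a _
      unfold recoga_lab
      split_ifs <;> simp only [recoga_val, Matrix.cons_val] <;> linarith
    refine le_trans ?_ (sum_le_sum h1)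
    rw [sum_add_distrib, sum_add_distrib, sum_ite_eq', sum_ite_eq', if_pos hv,
      if_pos (hI _ hv _ hq.le), sum_const, nsmul_eq_mul]
    linarith
  · rcases I.eq_empty_or_nonempty with rfl | hne
    · simp
    obtain ⟨b, hb, hm⟩ := I.exists_minimal hne
    have hb2 : IsMin b := fun c hc => hm (hI b hb c hc) hc
    have h1 : ∀ a ∈ I, -1 + (if a = b then (N : ℚ) else 0) ≤
        recoga_val N s (recoga_lab q a) := by
      intro a ha
      unfold recoga_lab
      rw [if_neg (show ¬ a = q.2 from fun h => hv (h ▸ ha))]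
      split_ifs with h1 h2 h3 <;> simp only [recoga_val, Matrix.cons_val] <;>
        first | linarith | exact absurd (h1 ▸ hb2) h3
    refine le_trans ?_ (sum_le_sum h1)
    rw [sum_add_distrib, sum_ite_eq', if_pos hb, sum_const, nsmul_eq_mul]
    linarith

lemma recoga_inv {α : Type} [Fintype α] [PartialOrder α] [DecidablePred (fun a : α => IsMin a)]
    (N s : ℕ) (hN : 0 < N) (hs : (univ.filter fun a : α => IsMin a).card = s) (y : α → Fin 4)
    (c1 : ct y 1 + 1 = s) (c2 : ct y 2 = 1) (c3 : ct y 3 = 1)
    (hV : ∀ I : Finset α, Low I → 0 ≤ ∑ a ∈ I, recoga_val N s (y a)) :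
    ∃ q : α × α, IsMin q.1 ∧ q.1 < q.2 ∧ recoga_lab q = y := by
  classical
  obtain ⟨m, hm⟩ := card_eq_one.1 c2
  obtain ⟨v, hv⟩ := card_eq_one.1 c3
  have hm' : ∀ a, y a = 2 ↔ a = m := fun a => by simpa using Finset.ext_iff.1 hm a
  have hv' : ∀ a, y a = 3 ↔ a = v := fun a => by simpa using Finset.ext_iff.1 hv a
  have n0 : (0 : ℚ) < N := by exact_mod_cast hN
  have s0 : (s : ℚ) = ct y 1 + 1 := by exact_mod_cast c1.symm
  have n1 : (0 : ℚ) < N * s := by rw [s0]; positivity
  have h1 : (univ.filter fun a : α => IsMin a) = insert m (univ.filter fun a => y a = 1) := by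
    refine eq_of_subset_of_card_le (fun a ha => ?_) ((card_insert_le _ _).trans (by
      rw [hs, ← c1]; rfl))
    have h2 := hV {a} fun b hb c hc => by
      rw [mem_singleton] at hb ⊢
      subst hb
      exact le_antisymm hc ((mem_filter.1 ha).2 hc)
    rw [sum_singleton] at h2
    rw [mem_insert, ← hm', mem_filter]
    revert h2
    generalize y a = l
    fin_cases l <;> simp [recoga_val]
    exact n1
  have h2 : ∀ a, IsMin a ↔ a = m ∨ y a = 1 := fun a => by simpa using Finset.ext_iff.1 h1 a
  have hmv : m ≠ v := fun h => by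
    have h3 := (hm' m).2 rfl
    rw [(hv' m).2 h] at h3
    exact absurd h3 (by decide)
  have h3 : m ≤ v := by
    by_contra hc
    have h4 := hV (univ.filter fun b => b ≤ v) fun b hb c hc =>
      mem_filter.2 ⟨mem_univ _, hc.trans (mem_filter.1 hb).2⟩
    have h5 : ∀ a ∈ univ.filter fun b => b ≤ v, recoga_val N s (y a) ≤
        (if y a = 1 then (N : ℚ) else 0) + if a = v then -((N : ℚ) * s) else 0 := by
      intro a ha
      have h6 : y a ≠ 2 := fun h => hc ((hm' a).1 h ▸ (mem_filter.1 ha).2)
      simp only [← hv']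
      revert h6
      generalize y a = l
      fin_cases l <;> simp [recoga_val]
    have h6 := h4.trans (sum_le_sum h5)
    rw [sum_add_distrib, sum_ite_eq', if_pos (show v ∈ univ.filter fun b => b ≤ v by simp), ← sum_filter,
      sum_const, nsmul_eq_mul] at h6
    have h7 : (((univ.filter fun b => b ≤ v).filter fun a => y a = 1).card : ℚ) ≤ ct y 1 := by
      exact_mod_cast card_le_card (filter_subset_filter _ (subset_univ _))
    nlinarith
  refine ⟨(m, v), (h2 m).2 (.inl rfl), lt_of_le_of_ne h3 hmv, funext fun a => ?_⟩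
  unfold recoga_lab
  split_ifs with e1 e2 e3
  · exact ((hm' a).2 e1).symm
  · exact ((hv' a).2 e2).symm
  · exact (((h2 a).1 e3).resolve_left e1).symm
  · have f1 := mt (hm' a).1 e1
    have f2 := mt (hv' a).1 e2
    have f3 : y a ≠ 1 := fun h => e3 ((h2 a).2 (.inr h))
    revert f1 f2 f3
    generalize y a = l
    revert l
    decide

lemma recoga_theta (α : Type) [Fintype α] [PartialOrder α] [DecidablePred (fun a : α => IsMin a)]
    [DecidablePred (fun q : α × α => IsMin q.1 ∧ q.1 < q.2)] (N s : ℕ) (hN : Fintype.card α < N)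
    (hs : (univ.filter fun a : α => IsMin a).card = s) :
    Theta (R := ℤ) (Λ := Fin 4) α (fun _ _ => 1) (fun c => c 1 + 1 = s ∧ c 2 = 1 ∧ c 3 = 1)
      (fun _ => recoga_val N s) = (univ.filter fun q : α × α => IsMin q.1 ∧ q.1 < q.2).card := by
  classical
  unfold Theta
  simp only [prod_const_one]
  rw [sum_boole]
  congr 1
  symm
  refine card_bij (fun q _ => recoga_lab q) (fun q hq => ?_) (fun q hq q' hq' h => ?_)
    fun y hy => ?_
  · obtain ⟨h1, h2⟩ := (mem_filter.1 hq).2
    refine mem_filter.2 ⟨mem_univ _, ⟨?_, ?_, ?_⟩, recoga_valid N s hN.le q h2⟩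
    · have : (univ.filter fun a => recoga_lab q a = 1) =
          (univ.filter fun a : α => IsMin a).erase q.1 := by
        ext a
        simp [recoga_one q h2]
      rw [ct, this, ← hs]
      exact card_erase_add_one (mem_filter.2 ⟨mem_univ _, h1⟩)
    · exact card_eq_one.2 ⟨q.1, by ext a; simp [recoga_two]⟩
    · exact card_eq_one.2 ⟨q.2, by ext a; simp [recoga_three q h2]⟩
  · refine Prod.ext ((recoga_two q' _).1 ?_) ((recoga_three q' (mem_filter.1 hq').2.2 _).1 ?_)
    · rw [← h, recoga_two]
    · rw [← h, recoga_three q (mem_filter.1 hq).2.2]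
  · obtain ⟨⟨c1, c2, c3⟩, hV⟩ := (mem_filter.1 hy).2
    obtain ⟨q, h1, h2, h3⟩ := recoga_inv N s (by omega) hs y c1 c2 c3 hV
    exact ⟨q, mem_filter.2 ⟨mem_univ _, h1, h2⟩, h3⟩

/-- exists_strict with f a = card of the elements below a, then exists_equiv_of_ct -/
theorem card_eq {α β : Type} [Fintype α] [PartialOrder α] [Fintype β] [PartialOrder β]
    (Q : SameQ α β) : Fintype.card α = Fintype.card β := by
  obtain ⟨f, h1, h2, -⟩ := recoga_rank α
  obtain ⟨g, -, -, g3⟩ := exists_strict Q _ f h1 h2
  obtain ⟨e, -⟩ := exists_equiv_of_ct g3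
  exact Fintype.card_congr e

/-- The number of minimal elements is invariant: exists_strict both ways with
f a = card of the elements below a (f a = 0 iff a minimal; a strict map with s zeros needs s minimal
elements). -/
theorem min_eq {α β : Type} [Fintype α] [PartialOrder α] [Fintype β] [PartialOrder β]
    [DecidablePred (fun a : α => IsMin a)] [DecidablePred (fun a : β => IsMin a)]
    (Q : SameQ α β) :
    (univ.filter fun a : α => IsMin a).card = (univ.filter fun a : β => IsMin a).card :=
  le_antisymm (recoga_min_le Q) (recoga_min_le fun m => (Q m).symm)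

/-- The number of pairs (m, v), m minimal, m < v, is invariant. Theta_eq with R = ℤ, w = 1,
Λ = Fin 4, n = card, s = number of minimal elements, adm c: c 1 + 1 = s, c 2 = 1, c 3 = 1;
values: label 0 ↦ -1/(n+1), 1 ↦ 1, 2 ↦ s+1, 3 ↦ -s. Singletons of minimal elements are lower sets,
so the s minimal elements carry exactly the s labels 1, 2; the lower set of the vertex v labelled 3
must contain the vertex m labelled 2; conversely every such labelling is valid. So the valid
labellings are in bijection with the pairs (m, v). -/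
theorem pair_eq {α β : Type} [Fintype α] [PartialOrder α] [Fintype β] [PartialOrder β]
    [DecidablePred (fun q : α × α => IsMin q.1 ∧ q.1 < q.2)]
    [DecidablePred (fun q : β × β => IsMin q.1 ∧ q.1 < q.2)] (Q : SameQ α β) :
    (univ.filter fun q : α × α => IsMin q.1 ∧ q.1 < q.2).card =
      (univ.filter fun q : β × β => IsMin q.1 ∧ q.1 < q.2).card := by
  classical
  have h1 := recoga_theta α (Fintype.card α + 1) _ (Nat.lt_succ_self _) rfl
  have h2 := recoga_theta β (Fintype.card α + 1) _ (by rw [card_eq Q]; omega) (min_eq Q).symm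
  rw [Theta_eq Q, h2] at h1
  exact_mod_cast h1.symm

end Pool.Agent.Work.MP_be9894_co.Sb
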